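import Pool.Agent.H96.PR.G

set_option autoImplicit false

/-! Energies of perturbed products of polynomials at dense sets of arguments. -/

namespace Pool.Agent.H96.PR
open Finset
open Pool.Agent.TH935.GF (En)

/-- the order of the energy of the factors may be zero -/
theorem energy_main0 (h k C B : ℕ) (δ : ℝ) (hδ : 0 < δ) : ∃ H C' N₀ : ℕ, 1 ≤ H ∧ ∀ N : ℕ, N₀ ≤ N →
    ∀ (X : Fin (k + 2) → Type) [∀ i, Fintype (X i)] (a : ∀ i, X i → ℤ) (M : Fin (k + 2) → ℕ) (f : Fin (k + 2) → (∀ i, X i) → ℤ),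
    (∀ i, (N : ℝ) ^ δ ≤ M i ∧ M i ≤ N ^ B) → (∀ i x, |a i x| ≤ M i) →
    (∀ i, (En h (a i) : ℝ) * M i ≤ Real.log N ^ C * (Fintype.card (X i) : ℝ) ^ (2 * h)) →
    (N : ℝ) ≤ Real.log N ^ C * ∏ i, (M i : ℝ) →
    (∀ s x x', (∀ t, t ≠ s → x t = x' t) → f s x = f s x') →
    (En H (fun x : ∀ i, X i => ∏ i, a i (x i) + ∑ s, f s x) : ℝ) * N ≤
      Real.log N ^ C' * (Fintype.card (∀ i, X i) : ℝ) ^ (2 * H) := by
  obtain ⟨H, C', N₁, hH, h1⟩ := energy_main (h + 1) k C B (by omega) δ hδ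
  refine ⟨H, C', N₁, hH, fun N hN X _ a M f hM ha hE hNM hf => ?_⟩
  refine h1 N (by omega) X a M f hM ha ?_ hNM hf
  intro i
  have h3 := hE i
  have h5 : (En (h + 1) (a i) : ℝ) ≤ (Fintype.card (X i) : ℝ) ^ 2 * En h (a i) := by
    exact_mod_cast En_succ h (a i)
  calc (En (h + 1) (a i) : ℝ) * M i ≤ (Fintype.card (X i) : ℝ) ^ 2 * En h (a i) * M i := by gcongr
    _ = (Fintype.card (X i) : ℝ) ^ 2 * (En h (a i) * M i) := by ring
    _ ≤ (Fintype.card (X i) : ℝ) ^ 2 * (Real.log N ^ C * (Fintype.card (X i) : ℝ) ^ (2 * h)) := by gcongr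
    _ = _ := by rw [mul_add, pow_add]; ring

/-- polynomials at dense sets of arguments -/
theorem energy_polys (k C B : ℕ) (δ : ℝ) (hδ : 0 < δ) (g : Fin (k + 2) → Polynomial ℤ)
    (hg : ∀ i, 1 ≤ (g i).natDegree) :
    ∃ H C' N₀ : ℕ, 1 ≤ H ∧ ∀ N : ℕ, N₀ ≤ N → ∀ (X : Fin (k + 2) → ℕ) (D : Fin (k + 2) → Finset ℕ),
      (∀ i, D i ⊆ Icc 1 (X i) ∧ (X i : ℝ) ≤ Real.log N ^ C * (D i).card) →
      (∀ i, (N : ℝ) ^ δ ≤ X i ∧ X i ≤ N ^ B) → (N : ℝ) ≤ Real.log N ^ C * ∏ i, (X i : ℝ) ^ (g i).natDegree →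
      ∀ f : Fin (k + 2) → (Fin (k + 2) → ℕ) → ℤ,
      (∀ (s : Fin (k + 2)) (x x' : Fin (k + 2) → ℕ), (∀ t, t ≠ s → x t = x' t) → f s x = f s x') →
      (En H (fun x : ∀ i, {m // m ∈ D i} => ∏ i, (g i).eval ((x i : ℕ) : ℤ) + ∑ s, f s (fun i => (x i : ℕ))) : ℝ) * N ≤
        Real.log N ^ C' * (Fintype.card (∀ i, {m // m ∈ D i}) : ℝ) ^ (2 * H) := by
  classical
  choose p c hc hp using fun i => Pool.Agent.TH823.Fam.energy_poly' (g i) (hg i)
  choose S hS using fun i => Pool.Agent.TH823.Fam.poly_size (g i)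
  obtain ⟨h, hh⟩ : ∃ h : ℕ, ∀ i, p i ≤ h := ⟨∑ i, p i, fun i => single_le_sum (f := p) (fun _ _ => Nat.zero_le _) (mem_univ i)⟩
  obtain ⟨B', hB'⟩ : ∃ B' : ℕ, ∀ i, B * (g i).natDegree + 1 ≤ B' :=
    ⟨∑ i, (B * (g i).natDegree + 1), fun i => single_le_sum (f := fun i => B * (g i).natDegree + 1)
      (fun _ _ => Nat.zero_le _) (mem_univ i)⟩
  obtain ⟨c', hc'⟩ : ∃ c' : ℝ, ∀ i, (S i + 1) * c i ≤ c' := ⟨∑ i, (S i + 1) * c i, fun i =>
    single_le_sum (f := fun i => (S i + 1) * c i) (fun j _ => mul_nonneg (by positivity) (hc j).le) (mem_univ i)⟩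
  obtain ⟨C', hC'⟩ : ∃ C' : ℕ, C' = 2 * h * C + 1 + C := ⟨_, rfl⟩
  obtain ⟨H, C'', N₁, hH, h1⟩ := energy_main0 h k C' B' δ hδ
  obtain ⟨N₂, h2⟩ := Pool.Agent.H373R2.T7.ev_L' (c' + 1)
  obtain ⟨N₃, h3⟩ := Pool.Agent.H373R2.T7.ev_L' 1
  refine ⟨H, C'', N₁ + N₂ + N₃ + ∑ i, (S i + 1) + 2, hH, fun N hN X D hD hX hNX f hf => ?_⟩
  have hLc := h2 N (by omega)
  have hL1 := h3 N (by omega)
  obtain ⟨L, hLd⟩ : ∃ L, L = Real.log (N : ℝ) := ⟨_, rfl⟩
  have hp1 := h1 N (by omega)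
  rw [← hLd] at hLc hL1 hD hNX hp1 ⊢
  have hL0 : 0 < L := by linarith
  have hN2 : (2 : ℝ) ≤ N := by exact_mod_cast (by omega : 2 ≤ N)
  have hN1 : 1 ≤ N := by omega
  have hX1 : ∀ i, 1 ≤ X i := by
    intro i
    have : (1 : ℝ) ≤ X i := (Real.one_le_rpow (by linarith) hδ.le).trans (hX i).1
    exact_mod_cast this
  -- the families
  refine hp1 (fun i => {m // m ∈ D i}) (fun i m => (g i).eval ((m : ℕ) : ℤ)) (fun i => (S i + 1) * X i ^ (g i).natDegree)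
    (fun s x => f s (fun i => (x i : ℕ))) ?_ ?_ ?_ ?_ ?_
  · intro i
    constructor
    · have h4 : (X i : ℝ) ≤ (X i : ℝ) ^ (g i).natDegree := by
        have : (1 : ℝ) ≤ X i := by exact_mod_cast hX1 i
        exact le_self_pow₀ this (by have := hg i; omega)
      have h5 : (0 : ℝ) ≤ S i := Nat.cast_nonneg _
      have h6 : (0 : ℝ) ≤ (X i : ℝ) ^ (g i).natDegree := by positivity
      push_cast
      nlinarith [(hX i).1]
    · have h4 : S i + 1 ≤ N := by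
        have h9 : S i + 1 ≤ ∑ i, (S i + 1) := single_le_sum (f := fun i => S i + 1) (fun _ _ => Nat.zero_le _) (mem_univ i)
        omega
      calc (S i + 1) * X i ^ (g i).natDegree ≤ N * (N ^ B) ^ (g i).natDegree := by gcongr; exact (hX i).2
        _ = N ^ (B * (g i).natDegree + 1) := by rw [← pow_mul, pow_succ, mul_comm]
        _ ≤ N ^ B' := Nat.pow_le_pow_right hN1 (hB' i)
  · intro i m
    have h4 := hS i (X i) (hX1 i) m ((hD i).1 m.2)
    push_cast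
    have h5 : (0 : ℤ) ≤ (X i : ℤ) ^ (g i).natDegree := by positivity
    nlinarith
  · intro i
    obtain ⟨j, hj⟩ : ∃ j, h = p i + j := ⟨h - p i, by have := hh i; omega⟩
    obtain ⟨dd, hdd⟩ : ∃ dd : ℝ, dd = (D i).card := ⟨_, rfl⟩
    have hdd0 : 0 ≤ dd := by rw [hdd]; positivity
    have h5 := energy_sub (p i) (X i) (fun m => (g i).eval (m : ℤ)) (D i) (hD i).1
    have h6 := En_mono (p i) j (fun m : {m // m ∈ D i} => (g i).eval ((m : ℕ) : ℤ))
    rw [← hj, Fintype.card_coe] at h6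
    have h7 := hp i (X i) (hX1 i) 0
    simp only [zero_add] at h7
    have h8 : (En h (fun m : {m // m ∈ D i} => (g i).eval ((m : ℕ) : ℤ)) : ℝ) ≤
        dd ^ (2 * j) * Pool.Agent.H373R2.T7.energy (p i) (X i) (fun m => (g i).eval (m : ℤ)) := by
      rw [hdd]
      exact_mod_cast h6.trans (Nat.mul_le_mul_left _ h5)
    have hXd : (X i : ℝ) ≤ L ^ C * dd := by rw [hdd]; exact (hD i).2
    have hX0 : (0 : ℝ) ≤ X i := Nat.cast_nonneg _
    have hS0 : (0 : ℝ) ≤ S i := Nat.cast_nonneg _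
    rw [Fintype.card_coe, ← hdd]
    push_cast
    have hpi : 2 * p i * C ≤ 2 * h * C := Nat.mul_le_mul_right _ (Nat.mul_le_mul_left _ (hh i))
    calc (En h (fun m : {m // m ∈ D i} => (g i).eval ((m : ℕ) : ℤ)) : ℝ) * ((S i + 1) * (X i : ℝ) ^ (g i).natDegree) ≤
          (dd ^ (2 * j) * Pool.Agent.H373R2.T7.energy (p i) (X i) (fun m => (g i).eval (m : ℤ))) * ((S i + 1) * (X i : ℝ) ^ (g i).natDegree) := by
            gcongr
      _ = dd ^ (2 * j) * (S i + 1) * (Pool.Agent.H373R2.T7.energy (p i) (X i) (fun m => (g i).eval (m : ℤ)) * (X i : ℝ) ^ (g i).natDegree) := by ring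
      _ ≤ dd ^ (2 * j) * (S i + 1) * (c i * (X i : ℝ) ^ (2 * p i)) := by gcongr
      _ ≤ dd ^ (2 * j) * (S i + 1) * (c i * (L ^ C * dd) ^ (2 * p i)) := by
            have := (hc i).le
            gcongr
      _ = ((S i + 1) * c i) * L ^ (2 * p i * C) * (dd ^ (2 * j) * dd ^ (2 * p i)) := by
            rw [mul_pow, ← pow_mul, mul_comm C]
            ring
      _ ≤ L * L ^ (2 * h * C) * (dd ^ (2 * j) * dd ^ (2 * p i)) := by
            have h9 := hc' i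
            gcongr
            linarith
      _ = L ^ (2 * h * C + 1) * dd ^ (2 * h) := by
            rw [← pow_add dd, hj]
            ring
      _ ≤ L ^ C' * dd ^ (2 * h) := by
            gcongr
            omega
  · push_cast
    rw [hC', pow_add]
    calc (N : ℝ) ≤ L ^ C * ∏ i, (X i : ℝ) ^ (g i).natDegree := hNX
      _ ≤ (L ^ (2 * h * C + 1) * L ^ C) * ∏ i, ((S i + 1 : ℝ) * (X i : ℝ) ^ (g i).natDegree) := by
        gcongr with i _
        · exact le_mul_of_one_le_left (by positivity) (one_le_pow₀ hL1)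
        · have : (1 : ℝ) ≤ S i + 1 := by
            have : (0 : ℝ) ≤ S i := Nat.cast_nonneg _
            linarith
          exact le_mul_of_one_le_left (by positivity) this
  · intro s x x' hxx
    exact hf s _ _ (fun t ht => by rw [hxx t ht])

end Pool.Agent.H96.PR
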