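import Pool.Agent.H96.PR.F
import Pool.Graph.R_seed8.TH823.Fam.Fam2

set_option autoImplicit false

/-! Windows, monotonicity of the energy, energies of polynomials on dense sets. -/

namespace Pool.Agent.H96.PR
open Finset
open Pool.Agent.TH935.GF (En)

lemma En_succ (h : ℕ) {V : Type} [Fintype V] (v : V → ℤ) : En (h + 1) v ≤ Fintype.card V ^ 2 * En h v := by
  classical
  rw [En_eq, En_eq]
  unfold Eg
  obtain ⟨s, hs⟩ : ∃ s, s = (univ : Finset (Y (h + 1) V)).filter (fun y => mu v y = 0) := ⟨_, rfl⟩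
  rw [← hs]
  have h1 := card_le_mul_card_image (f := fun y : Y (h + 1) V => (y.1 0, y.2 0)) s
    ((univ : Finset (Y h V)).filter (fun y => mu v y = 0)).card ?_
  · refine h1.trans ?_
    rw [mul_comm]
    gcongr
    calc (s.image (fun y : Y (h + 1) V => (y.1 0, y.2 0))).card ≤ (univ : Finset (V × V)).card := card_le_univ _
      _ = Fintype.card V ^ 2 := by rw [card_univ, Fintype.card_prod, sq]
  · rintro ⟨z, z'⟩ _
    refine le_trans ?_ (fib_le (h := h) v (v z' - v z))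
    apply card_le_card_of_injOn (fun y : Y (h + 1) V => ((fun j => y.1 j.succ, fun j => y.2 j.succ) : Y h V))
    · intro y hy
      rw [mem_coe, mem_filter, hs, mem_filter] at hy
      obtain ⟨⟨_, h2⟩, h3⟩ := hy
      rw [Prod.mk.injEq] at h3
      rw [mem_coe, mem_filter]
      refine ⟨mem_univ _, ?_⟩
      unfold mu at h2 ⊢
      rw [Fin.sum_univ_succ, Fin.sum_univ_succ, h3.1, h3.2] at h2
      simp only
      linarith
    · intro y hy y' hy' hyy
      rw [mem_coe, mem_filter, hs, mem_filter] at hy hy'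
      have e1 := hy.2
      have e2 := hy'.2
      rw [Prod.mk.injEq] at e1 e2
      simp only [Prod.mk.injEq] at hyy
      apply Prod.ext
      · funext j
        refine Fin.cases ?_ (fun j => ?_) j
        · rw [e1.1, e2.1]
        · exact congrFun hyy.1 j
      · funext j
        refine Fin.cases ?_ (fun j => ?_) j
        · rw [e1.2, e2.2]
        · exact congrFun hyy.2 j

lemma En_mono (h j : ℕ) {V : Type} [Fintype V] (v : V → ℤ) : En (h + j) v ≤ Fintype.card V ^ (2 * j) * En h v := by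
  induction j with
  | zero => simp
  | succ j ih =>
    calc En (h + (j + 1)) v ≤ Fintype.card V ^ 2 * En (h + j) v := En_succ (h + j) v
      _ ≤ Fintype.card V ^ 2 * (Fintype.card V ^ (2 * j) * En h v) := Nat.mul_le_mul_left _ ih
      _ = _ := by rw [← mul_assoc, ← pow_add]; congr 2; ring

lemma En_shift (h : ℕ) {V : Type} [Fintype V] (v : V → ℤ) (c : ℤ) : En h (fun x => v x + c) = En h v := by
  classical
  rw [En_eq, En_eq]
  unfold Eg
  congr 1
  apply filter_congr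
  intro y _
  have : mu (fun x => v x + c) y = mu v y := by
    unfold mu
    rw [sum_add_distrib, sum_add_distrib]
    ring
  rw [this]

/-- windows around the members of a family -/
lemma windows (p : ℕ) (P : ℕ → Prop) (H : ∀ B C U : ℕ, ∃ N₀ : ℕ, ∀ N : ℕ, N₀ ≤ N → ∀ (ι : Type) [Fintype ι] (v : ι → ℤ),
      (∀ i, v i ≤ B * N) → (En p v : ℝ) * N ≤ Real.log N ^ C * (Fintype.card ι : ℝ) ^ (2 * p) →
      ∀ S : Finset ι, (∀ i ∈ S, 0 < v i ∧ Even (v i) ∧ ¬ P (v i).toNat) → (S.card : ℝ) ≤ Fintype.card ι / Real.log N ^ U)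
    (A B C U : ℕ) : ∃ N₀ : ℕ, ∀ N : ℕ, N₀ ≤ N → ∀ (ι : Type) [Fintype ι] (v : ι → ℤ),
      (∀ i, v i ≤ B * N) → (En p v : ℝ) * N ≤ Real.log N ^ C * (Fintype.card ι : ℝ) ^ (2 * p) →
      ∀ S : Finset ι, (∀ i ∈ S, ∃ n : ℕ, 0 < n ∧ Even n ∧ |(n : ℝ) - v i| ≤ Real.log N ^ A ∧ ¬ P n) →
      (S.card : ℝ) ≤ Fintype.card ι / Real.log N ^ U := by
  classical
  obtain ⟨N₀, h0⟩ := H (B + 1) C (U + A + 1)
  obtain ⟨N₁, h1⟩ := Pool.Agent.H373R2.T7.ev_L' 3
  obtain ⟨N₂, h2⟩ := Pool.Agent.TH935.LD.log_pow_small A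
  refine ⟨N₀ + N₁ + N₂ + 3, fun N hN ι _ v hv hE S hS => ?_⟩
  have hL3 := h1 N (by omega)
  have hsm := h2 N (by omega)
  obtain ⟨L, hLd⟩ : ∃ L, L = Real.log (N : ℝ) := ⟨_, rfl⟩
  rw [← hLd] at hL3 hsm hS ⊢
  have hL0 : 0 < L := by linarith
  have hL1 : 1 ≤ L := by linarith
  obtain ⟨W, hW⟩ : ∃ W : ℕ, W = ⌊L ^ A⌋₊ := ⟨_, rfl⟩
  have hWle : (W : ℝ) ≤ L ^ A := by rw [hW]; exact Nat.floor_le (by positivity)
  have hWN : (W : ℝ) ≤ N := by
    have : 0 < L ^ A := by positivity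
    linarith
  have hWN' : W ≤ N := by exact_mod_cast hWN
  have hcov : S ⊆ (Icc (-(W : ℤ)) W).biUnion (fun j => S.filter (fun i => 0 < v i + j ∧ Even (v i + j) ∧ ¬ P (v i + j).toNat)) := by
    intro i hi
    obtain ⟨n, hn0, hn1, hn2, hn3⟩ := hS i hi
    rw [mem_biUnion]
    refine ⟨(n : ℤ) - v i, ?_, ?_⟩
    · rw [mem_Icc_abs]
      have h4 : ((|(n : ℤ) - v i| : ℤ) : ℝ) ≤ L ^ A := by
        push_cast
        exact hn2
      have h5 : ((|(n : ℤ) - v i|).toNat : ℝ) ≤ L ^ A := by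
        have h6 : (((|(n : ℤ) - v i|).toNat : ℤ) : ℝ) = ((|(n : ℤ) - v i| : ℤ) : ℝ) := by
          rw [Int.toNat_of_nonneg (abs_nonneg _)]
        have h7 : (((|(n : ℤ) - v i|).toNat : ℤ) : ℝ) = ((|(n : ℤ) - v i|).toNat : ℝ) := by push_cast; rfl
        rw [← h7, h6]
        exact h4
      have h8 : (|(n : ℤ) - v i|).toNat ≤ W := by rw [hW]; exact Nat.le_floor h5
      have h9 := Int.toNat_of_nonneg (abs_nonneg ((n : ℤ) - v i))
      omega
    · rw [mem_filter]
      have e1 : v i + ((n : ℤ) - v i) = n := by ring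
      rw [e1]
      refine ⟨hi, by exact_mod_cast hn0, by exact_mod_cast hn1, ?_⟩
      rw [Int.toNat_natCast]
      exact hn3
  have hj : ∀ j ∈ Icc (-(W : ℤ)) W, ((S.filter (fun i => 0 < v i + j ∧ Even (v i + j) ∧ ¬ P (v i + j).toNat)).card : ℝ) ≤
      Fintype.card ι / L ^ (U + A + 1) := by
    intro j hj
    have h3 := h0 N (by omega) ι (fun i => v i + j) (fun i => by
      have h4 := hv i
      rw [mem_Icc] at hj
      have h5 : (W : ℤ) ≤ N := by exact_mod_cast hWN'
      push_cast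
      nlinarith) (by rw [En_shift]; exact hE) (S.filter (fun i => 0 < v i + j ∧ Even (v i + j) ∧ ¬ P (v i + j).toNat))
      (fun i hi => (mem_filter.1 hi).2)
    rw [← hLd] at h3
    exact h3
  have hcount : (S.card : ℝ) ≤ (2 * W + 1) * (Fintype.card ι / L ^ (U + A + 1)) := by
    calc (S.card : ℝ) ≤ (((Icc (-(W : ℤ)) W).biUnion (fun j => S.filter (fun i => 0 < v i + j ∧ Even (v i + j) ∧ ¬ P (v i + j).toNat))).card : ℝ) := by
          exact_mod_cast card_le_card hcov
      _ ≤ ∑ j ∈ Icc (-(W : ℤ)) W, ((S.filter (fun i => 0 < v i + j ∧ Even (v i + j) ∧ ¬ P (v i + j).toNat)).card : ℝ) := by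
          exact_mod_cast card_biUnion_le
      _ ≤ ∑ _j ∈ Icc (-(W : ℤ)) W, (Fintype.card ι / L ^ (U + A + 1) : ℝ) := sum_le_sum hj
      _ = _ := by
          rw [sum_const, nsmul_eq_mul, Int.card_Icc]
          have : ((W : ℤ) + 1 - -(W : ℤ)).toNat = 2 * W + 1 := by omega
          rw [this]
          push_cast
          ring
  refine hcount.trans ?_
  have h3 : (2 * (W : ℝ) + 1) ≤ L ^ A * L := by
    have h4 : 1 ≤ L ^ A := one_le_pow₀ hL1
    nlinarith
  calc (2 * (W : ℝ) + 1) * (Fintype.card ι / L ^ (U + A + 1)) ≤ (L ^ A * L) * (Fintype.card ι / L ^ (U + A + 1)) := by gcongr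
    _ = _ := by
        rw [pow_succ, pow_add]
        field_simp

/-- the energy of a polynomial on a subset of an interval -/
lemma energy_sub (p x : ℕ) (s : ℕ → ℤ) (D : Finset ℕ) (hD : D ⊆ Icc 1 x) :
    En p (fun m : {m // m ∈ D} => s m) ≤ Pool.Agent.H373R2.T7.energy p x s := by
  classical
  unfold En Pool.Agent.H373R2.T7.energy
  rw [Nat.card_eq_fintype_card, Fintype.card_subtype]
  apply card_le_card_of_injOn (fun q => (fun j => (q.1 j : ℕ), fun j => (q.2 j : ℕ)))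
  · intro q hq
    rw [mem_coe, mem_filter] at hq
    rw [mem_coe, mem_filter, mem_product, Fintype.mem_piFinset, Fintype.mem_piFinset]
    exact ⟨⟨fun j => hD (q.1 j).2, fun j => hD (q.2 j).2⟩, hq.2⟩
  · intro q _ q' _ h
    simp only [Prod.mk.injEq] at h
    apply Prod.ext
    · funext j
      exact Subtype.ext (congrFun h.1 j)
    · funext j
      exact Subtype.ext (congrFun h.2 j)

end Pool.Agent.H96.PR
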