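import Mathlib

set_option autoImplicit false

/-! The inequality of Gowers-Cauchy-Schwarz type for exponential sums over products of families. -/

namespace Pool.Agent.H96.PR
open Finset

/-- `e(x) = exp(2 π i x)` -/
noncomputable def e (x : ℝ) : ℂ := Complex.exp ((2 * Real.pi * x : ℝ) * Complex.I)

lemma norm_e (x : ℝ) : ‖e x‖ = 1 := Complex.norm_exp_ofReal_mul_I _

lemma e_add (x y : ℝ) : e (x + y) = e x * e y := by
  unfold e
  rw [← Complex.exp_add]
  congr 1
  push_cast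
  ring

lemma e_zero : e 0 = 1 := by
  unfold e
  simp

lemma e_int (n : ℤ) : e n = 1 := by
  unfold e
  rw [Complex.exp_eq_one_iff]
  exact ⟨n, by push_cast; ring⟩

lemma conj_e (x : ℝ) : (starRingEnd ℂ) (e x) = e (-x) := by
  unfold e
  rw [← Complex.exp_conj]
  congr 1
  rw [map_mul, Complex.conj_ofReal, Complex.conj_I]
  push_cast
  ring

lemma e_sum {ι : Type} (s : Finset ι) (f : ι → ℝ) : e (∑ i ∈ s, f i) = ∏ i ∈ s, e (f i) := by
  classical
  induction s using Finset.induction_on with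
  | empty => simp [e_zero]
  | insert a s ha ih => rw [sum_insert ha, prod_insert ha, e_add, ih]

/-- pairs of `h`-tuples -/
abbrev Y (h : ℕ) (X : Type) : Type := (Fin h → X) × (Fin h → X)

/-- the difference of two sums of `h` members of the family -/
def mu {h : ℕ} {X : Type} (a : X → ℤ) (y : Y h X) : ℤ := ∑ j, a (y.1 j) - ∑ j, a (y.2 j)

lemma norm_pow_eq (h : ℕ) {X : Type} [Fintype X] (F : X → ℂ) :
    ((‖∑ x, F x‖ ^ (2 * h) : ℝ) : ℂ) = ∑ y : Y h X, (∏ j, F (y.1 j)) * ∏ j, (starRingEnd ℂ) (F (y.2 j)) := by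
  classical
  rw [Fintype.sum_prod_type]
  simp only
  have h1 : ∑ p : Fin h → X, ∑ q : Fin h → X, (∏ j, F (p j)) * ∏ j, (starRingEnd ℂ) (F (q j)) =
      (∑ p : Fin h → X, ∏ j, F (p j)) * (∑ q : Fin h → X, ∏ j, (starRingEnd ℂ) (F (q j))) := by
    rw [sum_mul_sum]
  have h2 := Fintype.sum_pow F h
  have h3 := Fintype.sum_pow (fun x => (starRingEnd ℂ) (F x)) h
  rw [h1, ← h2, ← h3, ← map_sum, ← mul_pow, Complex.mul_conj, Complex.normSq_eq_norm_sq]
  push_cast
  rw [pow_mul]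

lemma pm {ι : Type} (s : Finset ι) (f : ι → ℝ) (hf : ∀ i ∈ s, 0 ≤ f i) (p : ℕ) (hp : 1 ≤ p) :
    ((∑ i ∈ s, f i) / s.card) ^ p ≤ (∑ i ∈ s, f i ^ p) / s.card := by
  rcases s.eq_empty_or_nonempty with h | h
  · subst h
    simp [show p ≠ 0 by omega]
  · obtain ⟨n, rfl⟩ : ∃ n, p = n + 1 := ⟨p - 1, by omega⟩
    have h1 := pow_sum_div_card_le_sum_pow (s := s) (f := f) (n := n) hf
    have hc : (0 : ℝ) < s.card := by exact_mod_cast h.card_pos
    rw [div_pow, pow_succ (s.card : ℝ), ← div_div]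
    gcongr

end Pool.Agent.H96.PR
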