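import Pool.Agent.H96.PR.A

set_option autoImplicit false

/-! The inequality of Gowers-Cauchy-Schwarz type for exponential sums over products of families. -/

namespace Pool.Agent.H96.PR
open Finset

/-- box sums, normalised -/
noncomputable def R (h : ℕ) : (k : ℕ) → (X : Fin (k + 1) → Type) → [∀ i, Fintype (X i)] → (∀ i, X i → ℤ) → ℝ → ℝ
  | 0, X, _, a, θ => (‖∑ x : X 0, e (θ * a 0 x)‖ / Fintype.card (X 0)) ^ (2 * h)
  | k + 1, X, _, a, θ => (∑ y : Y h (X 0), R h k (fun i => X i.succ) (fun i => a i.succ) (θ * mu (a 0) y)) /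
      Fintype.card (Y h (X 0))

lemma R_nonneg (h : ℕ) : ∀ (k : ℕ) (X : Fin (k + 1) → Type) [∀ i, Fintype (X i)] (a : ∀ i, X i → ℤ) (θ : ℝ),
    0 ≤ R h k X a θ := by
  intro k
  induction k with
  | zero => intro X _ a θ; unfold R; positivity
  | succ k ih =>
    intro X _ a θ
    unfold R
    exact div_nonneg (sum_nonneg fun y _ => ih _ _ _) (Nat.cast_nonneg _)

lemma gcs_base (h : ℕ) (X : Fin 1 → Type) [∀ i, Fintype (X i)] (a : ∀ i, X i → ℤ) (θ : ℝ)
    (g : Fin 1 → (∀ i, X i) → ℂ) (hg : ∀ s x x', (∀ t, t ≠ s → x t = x' t) → g s x = g s x')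
    (hg1 : ∀ s x, ‖g s x‖ ≤ 1) :
    (‖∑ x : ∀ i, X i, e (θ * ((∏ i, a i (x i) : ℤ) : ℝ)) * ∏ s, g s x‖ / Fintype.card (∀ i, X i)) ^ ((2 * h) ^ 1) ≤
      R h 0 X a θ := by
  classical
  unfold R
  rw [pow_one]
  rcases isEmpty_or_nonempty (∀ i, X i) with hX | ⟨⟨x₀⟩⟩
  · rw [Fintype.sum_empty, norm_zero, zero_div]
    rcases Nat.eq_zero_or_pos (2 * h) with h0 | h0
    · rw [h0, pow_zero, pow_zero]
    · rw [zero_pow (by omega)]
      positivity
  · have h1 : ∀ x, g 0 x = g 0 x₀ := fun x => hg 0 x x₀ (fun t ht => absurd (Fin.fin_one_eq_zero t) ht)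
    have h2 : ∑ x : ∀ i, X i, e (θ * ((∏ i, a i (x i) : ℤ) : ℝ)) * ∏ s, g s x = (∑ x : X 0, e (θ * a 0 x)) * g 0 x₀ := by
      rw [sum_mul]
      refine Fintype.sum_equiv (Equiv.piUnique X) _ _ (fun x => ?_)
      rw [Fin.prod_univ_one, Fin.prod_univ_one, h1]
      rfl
    have h3 : Fintype.card (∀ i, X i) = Fintype.card (X 0) := Fintype.card_congr (Equiv.piUnique X)
    rw [h2, h3, norm_mul]
    gcongr
    exact mul_le_of_le_one_right (norm_nonneg _) (hg1 0 x₀)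

theorem gcs (h : ℕ) (hh : 1 ≤ h) : ∀ (k : ℕ) (X : Fin (k + 1) → Type) [∀ i, Fintype (X i)] (a : ∀ i, X i → ℤ) (θ : ℝ)
    (g : Fin (k + 1) → (∀ i, X i) → ℂ), (∀ s x x', (∀ t, t ≠ s → x t = x' t) → g s x = g s x') →
    (∀ s x, ‖g s x‖ ≤ 1) →
    (‖∑ x : ∀ i, X i, e (θ * ((∏ i, a i (x i) : ℤ) : ℝ)) * ∏ s, g s x‖ / Fintype.card (∀ i, X i)) ^ ((2 * h) ^ (k + 1)) ≤
      R h k X a θ := by
  classical
  intro k
  induction k with
  | zero =>
    intro X _ a θ g hg hg1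
    exact gcs_base h X a θ g hg hg1
  | succ k ih =>
    intro X _ a θ g hg hg1
    have hh0 : 1 ≤ 2 * h := by omega
    -- separate the first coordinate
    obtain ⟨X', hX'⟩ : ∃ X' : Fin (k + 1) → Type, X' = fun i => X i.succ := ⟨_, rfl⟩
    obtain ⟨N0, hN0⟩ : ∃ N0 : ℝ, N0 = Fintype.card (X 0) := ⟨_, rfl⟩
    obtain ⟨P, hP⟩ : ∃ P : ℝ, P = Fintype.card (∀ i : Fin (k + 1), X i.succ) := ⟨_, rfl⟩
    have hcard : (Fintype.card (∀ i, X i) : ℝ) = N0 * P := by
      rw [hN0, hP, ← Nat.cast_mul, ← Fintype.card_prod]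
      exact_mod_cast (Fintype.card_congr (Fin.consEquiv X)).symm
    obtain ⟨F, hF⟩ : ∃ F : X 0 → (∀ i : Fin (k + 1), X i.succ) → ℂ, F = fun x0 x' =>
      e (θ * ((a 0 x0 * ∏ i, a (Fin.succ i) (x' i) : ℤ) : ℝ)) * ∏ s : Fin (k + 1), g s.succ (Fin.cons x0 x') := ⟨_, rfl⟩
    have hsum : ‖∑ x : ∀ i, X i, e (θ * ((∏ i, a i (x i) : ℤ) : ℝ)) * ∏ s, g s x‖ ≤
        ∑ x' : (∀ i : Fin (k + 1), X i.succ), ‖∑ x0 : X 0, F x0 x'‖ := by
      have h1 : ∑ x : ∀ i, X i, e (θ * ((∏ i, a i (x i) : ℤ) : ℝ)) * ∏ s, g s x =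
          ∑ x' : (∀ i : Fin (k + 1), X i.succ), ∑ x0 : X 0, g 0 (Fin.cons x0 x') * F x0 x' := by
        rw [← Fintype.sum_equiv (Fin.consEquiv X) (fun z => e (θ * ((∏ i, a i ((Fin.consEquiv X z) i) : ℤ) : ℝ)) *
          ∏ s, g s (Fin.consEquiv X z)) _ (fun z => rfl), Fintype.sum_prod_type, sum_comm]
        apply sum_congr rfl
        intro x' _
        apply sum_congr rfl
        intro x0 _
        rw [hF]
        have q1 : ∏ i, a i ((Fin.consEquiv X (x0, x')) i) = a 0 x0 * ∏ i, a (Fin.succ i) (x' i) := by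
          rw [Fin.prod_univ_succ]
          rfl
        have q2 : ∏ s, g s (Fin.consEquiv X (x0, x')) = g 0 (Fin.cons x0 x') * ∏ s : Fin (k + 1), g s.succ (Fin.cons x0 x') := by
          rw [Fin.prod_univ_succ]
          rfl
        rw [q1, q2]
        ring
      rw [h1]
      refine (norm_sum_le _ _).trans (sum_le_sum fun x' _ => ?_)
      rcases isEmpty_or_nonempty (X 0) with hX | ⟨⟨z₀⟩⟩
      · simp
      · have h2 : ∑ x0 : X 0, g 0 (Fin.cons x0 x') * F x0 x' = g 0 (Fin.cons z₀ x') * ∑ x0 : X 0, F x0 x' := by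
          rw [mul_sum]
          apply sum_congr rfl
          intro x0 _
          congr 1
          apply hg 0
          intro t ht
          obtain ⟨j, rfl⟩ := Fin.exists_succ_eq.2 ht
          simp
        rw [h2, norm_mul]
        exact mul_le_of_le_one_left (norm_nonneg _) (hg1 0 _)
    obtain ⟨G, hG⟩ : ∃ G : Y h (X 0) → Fin (k + 1) → (∀ i : Fin (k + 1), X i.succ) → ℂ, G = fun y s x' =>
      (∏ j, g s.succ (Fin.cons (y.1 j) x')) * ∏ j, (starRingEnd ℂ) (g s.succ (Fin.cons (y.2 j) x')) := ⟨_, rfl⟩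
    obtain ⟨S', hS'⟩ : ∃ S' : Y h (X 0) → ℂ, S' = fun y => ∑ x' : (∀ i : Fin (k + 1), X i.succ),
      e ((θ * mu (a 0) y) * ((∏ i, a (Fin.succ i) (x' i) : ℤ) : ℝ)) * ∏ s, G y s x' := ⟨_, rfl⟩
    have hpow : ∑ x' : (∀ i : Fin (k + 1), X i.succ), ‖∑ x0 : X 0, F x0 x'‖ ^ (2 * h) ≤ ∑ y : Y h (X 0), ‖S' y‖ := by
      have h1 : ((∑ x' : (∀ i : Fin (k + 1), X i.succ), ‖∑ x0 : X 0, F x0 x'‖ ^ (2 * h) : ℝ) : ℂ) = ∑ y : Y h (X 0), S' y := by
        rw [Complex.ofReal_sum, hS']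
        simp only
        rw [sum_comm]
        apply sum_congr rfl
        intro x' _
        rw [norm_pow_eq]
        apply sum_congr rfl
        intro y _
        rw [hF, hG]
        simp only
        have e1 : e (θ * mu (a 0) y * ((∏ i, a (Fin.succ i) (x' i) : ℤ) : ℝ)) =
            (∏ j, e (θ * ((a 0 (y.1 j) * ∏ i, a (Fin.succ i) (x' i) : ℤ) : ℝ))) *
            ∏ j, (starRingEnd ℂ) (e (θ * ((a 0 (y.2 j) * ∏ i, a (Fin.succ i) (x' i) : ℤ) : ℝ))) := by
          have e2 : ∏ j, (starRingEnd ℂ) (e (θ * ((a 0 (y.2 j) * ∏ i, a (Fin.succ i) (x' i) : ℤ) : ℝ))) =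
              ∏ j, e (-(θ * ((a 0 (y.2 j) * ∏ i, a (Fin.succ i) (x' i) : ℤ) : ℝ))) := prod_congr rfl fun j _ => conj_e _
          rw [e2, ← e_sum, ← e_sum, ← e_add]
          congr 1
          unfold mu
          push_cast
          rw [sum_neg_distrib, ← mul_sum, ← mul_sum, ← sum_mul, ← sum_mul]
          ring
        rw [e1]
        simp only [map_mul, map_prod]
        rw [prod_mul_distrib, prod_mul_distrib, prod_mul_distrib]
        have e3 : ∏ j, ∏ s : Fin (k + 1), g s.succ (Fin.cons (y.1 j) x') = ∏ s : Fin (k + 1), ∏ j, g s.succ (Fin.cons (y.1 j) x') := prod_comm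
        have e4 : ∏ j, ∏ s : Fin (k + 1), (starRingEnd ℂ) (g s.succ (Fin.cons (y.2 j) x')) =
          ∏ s : Fin (k + 1), ∏ j, (starRingEnd ℂ) (g s.succ (Fin.cons (y.2 j) x')) := prod_comm
        rw [e3, e4]
        ring
      have h2 : (∑ x' : (∀ i : Fin (k + 1), X i.succ), ‖∑ x0 : X 0, F x0 x'‖ ^ (2 * h) : ℝ) =
          ‖((∑ x' : (∀ i : Fin (k + 1), X i.succ), ‖∑ x0 : X 0, F x0 x'‖ ^ (2 * h) : ℝ) : ℂ)‖ := by
        rw [Complex.norm_real, Real.norm_of_nonneg (sum_nonneg fun _ _ => by positivity)]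
      rw [h2, h1]
      exact norm_sum_le _ _
    have hGind : ∀ y s x x', (∀ t, t ≠ s → x t = x' t) → G y s x = G y s x' := by
      intro y s x x' hxx
      rw [hG]
      simp only
      have h1 : ∀ z : X 0, g s.succ (Fin.cons z x) = g s.succ (Fin.cons z x') := by
        intro z
        apply hg
        intro t ht
        refine Fin.cases ?_ (fun j => ?_) t (motive := fun t => t ≠ s.succ → (Fin.cons z x : ∀ i, X i) t = (Fin.cons z x' : ∀ i, X i) t) ht
        · intro _; simp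
        · intro hj
          simp only [Fin.cons_succ]
          exact hxx j (fun h => hj (by rw [h]))
      simp only [h1]
    have hG1 : ∀ y s x, ‖G y s x‖ ≤ 1 := by
      intro y s x
      rw [hG]
      simp only
      rw [norm_mul, norm_prod, norm_prod]
      have h1 : ∏ j, ‖g s.succ (Fin.cons (y.1 j) x)‖ ≤ 1 := prod_le_one (fun _ _ => norm_nonneg _) (fun _ _ => hg1 _ _)
      have h2 : ∏ j, ‖(starRingEnd ℂ) (g s.succ (Fin.cons (y.2 j) x))‖ ≤ 1 := prod_le_one (fun _ _ => norm_nonneg _)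
        (fun _ _ => by rw [RCLike.norm_conj]; exact hg1 _ _)
      exact mul_le_one₀ h1 (prod_nonneg fun _ _ => norm_nonneg _) h2
    -- the three power means
    have hcY : (Fintype.card (Y h (X 0)) : ℝ) = N0 ^ (2 * h) := by
      rw [hN0, Fintype.card_prod, Fintype.card_fun, Fintype.card_fin, ← pow_add, ← two_mul]
      push_cast
      rfl
    have hstep : ∀ y, (‖S' y‖ / P) ^ ((2 * h) ^ (k + 1)) ≤ R h k (fun i => X i.succ) (fun i => a i.succ) (θ * mu (a 0) y) := by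
      intro y
      have h1 := ih (fun i => X i.succ) (fun i => a i.succ) (θ * mu (a 0) y) (G y) (hGind y) (hG1 y)
      rw [hS', hP]
      exact h1
    have hP0 : 0 ≤ P := by rw [hP]; positivity
    have hN00 : 0 ≤ N0 := by rw [hN0]; positivity
    rw [hcard]
    obtain ⟨Z, hZ⟩ : ∃ Z : ℝ, Z = ‖∑ x : ∀ i, X i, e (θ * ((∏ i, a i (x i) : ℤ) : ℝ)) * ∏ s, g s x‖ := ⟨_, rfl⟩
    rw [← hZ] at hsum ⊢
    have hZ0 : 0 ≤ Z := by rw [hZ]; exact norm_nonneg _
    have e0 : (2 * h) ^ (k + 1 + 1) = (2 * h) * (2 * h) ^ (k + 1) := by rw [pow_succ, mul_comm]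
    have hm1 : 1 ≤ (2 * h) ^ (k + 1) := Nat.one_le_pow _ _ (by omega)
    have hle1 : (Z / (N0 * P)) ^ (2 * h) ≤ (∑ y : Y h (X 0), ‖S' y‖ / P) / Fintype.card (Y h (X 0)) := by
      have h1 : (Z / P) ^ (2 * h) ≤ (∑ x' : (∀ i : Fin (k + 1), X i.succ), ‖∑ x0 : X 0, F x0 x'‖ ^ (2 * h)) / P := by
        have h2 := pm (univ : Finset (∀ i : Fin (k + 1), X i.succ)) (fun x' => ‖∑ x0 : X 0, F x0 x'‖) (fun _ _ => norm_nonneg _) (2 * h) hh0
        rw [card_univ, ← hP] at h2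
        refine le_trans ?_ h2
        gcongr
      have h3 : (Z / (N0 * P)) ^ (2 * h) = (Z / P) ^ (2 * h) / N0 ^ (2 * h) := by
        rw [← div_pow, div_div, mul_comm P]
      rw [h3, hcY]
      gcongr
      refine h1.trans ?_
      rw [← sum_div]
      gcongr
    rw [e0, pow_mul]
    calc ((Z / (N0 * P)) ^ (2 * h)) ^ ((2 * h) ^ (k + 1)) ≤ ((∑ y : Y h (X 0), ‖S' y‖ / P) / Fintype.card (Y h (X 0))) ^ ((2 * h) ^ (k + 1)) := by
          gcongr
      _ ≤ (∑ y : Y h (X 0), (‖S' y‖ / P) ^ ((2 * h) ^ (k + 1))) / Fintype.card (Y h (X 0)) := by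
          have h2 := pm (univ : Finset (Y h (X 0))) (fun y => ‖S' y‖ / P) (fun _ _ => by positivity) ((2 * h) ^ (k + 1)) hm1
          rwa [card_univ] at h2
      _ ≤ R h (k + 1) X a θ := by
          rw [R]
          gcongr with y _
          exact hstep y

end Pool.Agent.H96.PR
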