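import Pool.Agent.H96.PR.A

set_option autoImplicit false

/-! Trigonometric polynomials with nonnegative coefficients dominated by divisor functions. -/

namespace Pool.Agent.H96.PR
open Finset

/-- a nonnegative trigonometric polynomial whose coefficients are nonnegative and dominated by a divisor function, the
coefficient at `0` is small -/
structure Maj (X : ℕ) (Q : ℝ) (j : ℕ) (z tot : ℝ) (T : ℝ → ℝ) (c : ℤ → ℝ) : Prop where
  nonneg : ∀ n, 0 ≤ c n
  supp : ∀ n : ℤ, (X : ℤ) < |n| → c n = 0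
  eq : ∀ θ, (T θ : ℂ) = ∑ n ∈ Icc (-(X : ℤ)) X, (c n : ℂ) * e (θ * n)
  pos : ∀ θ, 0 ≤ T θ
  tau : ∀ n : ℤ, n ≠ 0 → c n ≤ 2 * (2 * (n.natAbs.divisors.card : ℝ)) ^ j
  zero : c 0 * Q ≤ z * tot
  total : ∑ n ∈ Icc (-(X : ℤ)) X, c n = tot

lemma mem_Icc_abs {X : ℕ} {n : ℤ} : n ∈ Icc (-(X : ℤ)) X ↔ |n| ≤ X := by
  rw [mem_Icc, abs_le]

/-- the coefficients after summation over multiples -/
noncomputable def nx (M X : ℕ) (c : ℤ → ℝ) (n : ℤ) : ℝ :=
  ∑ μ ∈ Icc (-(M : ℤ)) M, ∑ m ∈ (Icc (-(X : ℤ)) X).filter (fun m => m * μ = n), c m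

lemma nx_sum (M X : ℕ) (c : ℤ → ℝ) (F : ℤ → ℂ) :
    ∑ n ∈ Icc (-((M * X : ℕ) : ℤ)) ((M * X : ℕ) : ℤ), (nx M X c n : ℂ) * F n =
      ∑ μ ∈ Icc (-(M : ℤ)) M, ∑ m ∈ Icc (-(X : ℤ)) X, (c m : ℂ) * F (m * μ) := by
  unfold nx
  push_cast
  simp only [sum_mul]
  rw [sum_comm]
  apply sum_congr rfl
  intro μ hμ
  rw [← sum_fiberwise_of_maps_to (s := Icc (-(X : ℤ)) X) (t := Icc (-((M * X : ℕ) : ℤ)) ((M * X : ℕ) : ℤ))
    (g := fun m => m * μ) (f := fun m => (c m : ℂ) * F (m * μ))]
  · push_cast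
    apply sum_congr rfl
    intro n _
    apply sum_congr rfl
    intro m hm
    rw [mem_filter] at hm
    rw [hm.2]
  · intro m hm
    rw [mem_Icc_abs] at hm hμ ⊢
    rw [abs_mul, mul_comm]
    push_cast
    exact mul_le_mul hμ hm (abs_nonneg _) (by positivity)

lemma Maj.step {X : ℕ} {Q : ℝ} {j : ℕ} {z tot : ℝ} {T : ℝ → ℝ} {c : ℤ → ℝ} (h : Maj X Q j z tot T c) (M : ℕ)
    (hQ0 : 0 ≤ Q) (hz : 0 ≤ z) (hQM : Q ≤ 2 * M + 1) :
    Maj (M * X) Q (j + 1) (z + 1) ((2 * M + 1) * tot) (fun θ => ∑ μ ∈ Icc (-(M : ℤ)) M, T (θ * μ)) (nx M X c) := by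
  classical
  have htot0 : 0 ≤ tot := by rw [← h.total]; exact sum_nonneg fun n _ => h.nonneg n
  have hcard : ((Icc (-(M : ℤ)) M).card : ℝ) = 2 * M + 1 := by
    rw [Int.card_Icc]
    have : ((M : ℤ) + 1 - -(M : ℤ)).toNat = 2 * M + 1 := by omega
    rw [this]
    push_cast
    ring
  refine ⟨?_, ?_, ?_, ?_, ?_, ?_, ?_⟩
  · intro n
    exact sum_nonneg fun μ _ => sum_nonneg fun m _ => h.nonneg m
  · intro n hn
    unfold nx
    apply sum_eq_zero
    intro μ hμ
    apply sum_eq_zero
    intro m hm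
    exfalso
    rw [mem_filter, mem_Icc_abs] at hm
    rw [mem_Icc_abs] at hμ
    rw [← hm.2, abs_mul] at hn
    have : |m| * |μ| ≤ (X : ℤ) * M := mul_le_mul hm.1 hμ (abs_nonneg _) (by positivity)
    push_cast at hn
    linarith [mul_comm (X : ℤ) M]
  · intro θ
    rw [nx_sum M X c (fun n => e (θ * n))]
    push_cast
    apply sum_congr rfl
    intro μ _
    rw [h.eq]
    apply sum_congr rfl
    intro m _
    congr 2
    ring
  · intro θ
    exact sum_nonneg fun μ _ => h.pos _
  · intro n hn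
    unfold nx
    have h1 : ∀ μ ∈ Icc (-(M : ℤ)) M, ∑ m ∈ (Icc (-(X : ℤ)) X).filter (fun m => m * μ = n), c m ≤
        if μ ∣ n then 2 * (2 * (n.natAbs.divisors.card : ℝ)) ^ j else 0 := by
      intro μ _
      split_ifs with hd
      · -- at most one m
        have hμ0 : μ ≠ 0 := by
          rintro rfl
          exact hn (zero_dvd_iff.1 hd)
        have hsub : (Icc (-(X : ℤ)) X).filter (fun m => m * μ = n) ⊆ {n / μ} := by
          intro m hm
          rw [mem_filter] at hm
          rw [mem_singleton, ← hm.2, Int.mul_ediv_cancel _ hμ0]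
        refine (sum_le_sum_of_subset_of_nonneg hsub fun m _ _ => h.nonneg m).trans ?_
        rw [sum_singleton]
        obtain ⟨t, ht⟩ := hd
        have e1 : n / μ = t := by rw [ht, Int.mul_ediv_cancel_left _ hμ0]
        have ht0 : t ≠ 0 := by
          rintro rfl
          exact hn (by rw [ht, mul_zero])
        rw [e1]
        refine (h.tau t ht0).trans ?_
        have h2 : t.natAbs.divisors.card ≤ n.natAbs.divisors.card := by
          apply card_le_card
          apply Nat.divisors_subset_of_dvd (Int.natAbs_ne_zero.2 hn)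
          rw [ht, Int.natAbs_mul]
          exact dvd_mul_left _ _
        have h3 : (t.natAbs.divisors.card : ℝ) ≤ n.natAbs.divisors.card := by exact_mod_cast h2
        gcongr
      · apply le_of_eq
        apply sum_eq_zero
        intro m hm
        rw [mem_filter] at hm
        exact absurd ⟨m, by rw [← hm.2, mul_comm]⟩ hd
    refine (sum_le_sum h1).trans ?_
    rw [← sum_filter, sum_const, nsmul_eq_mul]
    have h2 : ((Icc (-(M : ℤ)) M).filter (fun μ => μ ∣ n)).card ≤ 2 * n.natAbs.divisors.card := by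
      have h3 : (Icc (-(M : ℤ)) M).filter (fun μ => μ ∣ n) ⊆
          (n.natAbs.divisors.image (fun d : ℕ => (d : ℤ))) ∪ (n.natAbs.divisors.image (fun d : ℕ => -(d : ℤ))) := by
        intro μ hμ
        rw [mem_filter] at hμ
        have h4 : μ.natAbs ∈ n.natAbs.divisors := Nat.mem_divisors.2 ⟨Int.natAbs_dvd_natAbs.2 hμ.2, Int.natAbs_ne_zero.2 hn⟩
        rw [mem_union, mem_image, mem_image]
        rcases le_total 0 μ with h5 | h5
        · exact Or.inl ⟨μ.natAbs, h4, Int.natAbs_of_nonneg h5⟩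
        · right
          exact ⟨μ.natAbs, h4, by rw [Int.ofNat_natAbs_of_nonpos h5, neg_neg]⟩
      refine (card_le_card h3).trans ((card_union_le _ _).trans ?_)
      have := card_image_le (s := n.natAbs.divisors) (f := fun d : ℕ => (d : ℤ))
      have := card_image_le (s := n.natAbs.divisors) (f := fun d : ℕ => -(d : ℤ))
      omega
    have h5 : (((Icc (-(M : ℤ)) M).filter (fun μ => μ ∣ n)).card : ℝ) ≤ 2 * (n.natAbs.divisors.card : ℝ) := by exact_mod_cast h2
    calc (((Icc (-(M : ℤ)) M).filter (fun μ => μ ∣ n)).card : ℝ) * (2 * (2 * (n.natAbs.divisors.card : ℝ)) ^ j) ≤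
        (2 * (n.natAbs.divisors.card : ℝ)) * (2 * (2 * (n.natAbs.divisors.card : ℝ)) ^ j) := by gcongr
      _ = _ := by rw [pow_succ]; ring
  · -- the coefficient at 0
    have h0 : nx M X c 0 ≤ (2 * M) * c 0 + tot := by
      unfold nx
      have hm0 : (0 : ℤ) ∈ Icc (-(M : ℤ)) M := by rw [mem_Icc_abs]; simp
      rw [← add_sum_erase _ _ hm0]
      have h1 : ∑ m ∈ (Icc (-(X : ℤ)) X).filter (fun m => m * 0 = 0), c m = tot := by
        rw [← h.total]
        apply sum_congr _ (fun _ _ => rfl)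
        apply filter_true_of_mem
        intro m _
        exact mul_zero m
      have h2 : ∑ μ ∈ (Icc (-(M : ℤ)) M).erase 0, ∑ m ∈ (Icc (-(X : ℤ)) X).filter (fun m => m * μ = 0), c m ≤ (2 * M) * c 0 := by
        have h3 : ∀ μ ∈ (Icc (-(M : ℤ)) M).erase 0, ∑ m ∈ (Icc (-(X : ℤ)) X).filter (fun m => m * μ = 0), c m ≤ c 0 := by
          intro μ hμ
          have hμ0 := (mem_erase.1 hμ).1
          have hsub : (Icc (-(X : ℤ)) X).filter (fun m => m * μ = 0) ⊆ {0} := by
            intro m hm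
            rw [mem_filter] at hm
            rw [mem_singleton]
            exact (mul_eq_zero.1 hm.2).resolve_right hμ0
          refine (sum_le_sum_of_subset_of_nonneg hsub fun m _ _ => h.nonneg m).trans ?_
          rw [sum_singleton]
        refine (sum_le_sum h3).trans ?_
        rw [sum_const, nsmul_eq_mul, card_erase_of_mem hm0]
        have h4 : (((Icc (-(M : ℤ)) M).card - 1 : ℕ) : ℝ) = 2 * M := by
          rw [Int.card_Icc]
          have : ((M : ℤ) + 1 - -(M : ℤ)).toNat - 1 = 2 * M := by omega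
          rw [this]
          push_cast
          ring
        rw [h4]
      rw [h1]
      linarith
    have h1 := h.zero
    calc nx M X c 0 * Q ≤ ((2 * M) * c 0 + tot) * Q := by gcongr
      _ = (2 * M) * (c 0 * Q) + Q * tot := by ring
      _ ≤ (2 * M) * (z * tot) + (2 * M + 1) * tot := by gcongr
      _ ≤ (z + 1) * ((2 * M + 1) * tot) := by
          have : 0 ≤ z * tot := by positivity
          nlinarith
  · have h1 := nx_sum M X c (fun _ => 1)
    simp only [mul_one] at h1
    have h2 : ∑ n ∈ Icc (-((M * X : ℕ) : ℤ)) ((M * X : ℕ) : ℤ), nx M X c n = ∑ μ ∈ Icc (-(M : ℤ)) M, ∑ m ∈ Icc (-(X : ℤ)) X, c m := by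
      exact_mod_cast h1
    rw [h2, h.total, sum_const, nsmul_eq_mul, hcard]

/-- the Fejér kernel of length `L` -/
noncomputable def W (L : ℕ) (θ : ℝ) : ℝ := 2 / L * ‖∑ i ∈ range L, e (θ * i)‖ ^ 2

/-- its coefficients -/
noncomputable def cW (L : ℕ) (n : ℤ) : ℝ :=
  2 / L * (((range L ×ˢ range L).filter (fun q => (q.1 : ℤ) - q.2 = n)).card : ℝ)

lemma W_eq (L : ℕ) (θ : ℝ) : (W L θ : ℂ) = 2 / L * ∑ q ∈ range L ×ˢ range L, e (θ * ((q.1 : ℤ) - q.2 : ℤ)) := by
  unfold W
  push_cast
  congr 1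
  have h1 : ((‖∑ i ∈ range L, e (θ * i)‖ : ℂ)) ^ 2 = (∑ i ∈ range L, e (θ * i)) * (starRingEnd ℂ) (∑ i ∈ range L, e (θ * i)) := by
    rw [Complex.mul_conj, Complex.normSq_eq_norm_sq]
    push_cast
    rfl
  rw [h1, map_sum, sum_mul_sum, sum_product]
  apply sum_congr rfl
  intro i _
  apply sum_congr rfl
  intro j _
  rw [conj_e, ← e_add]
  congr 1
  push_cast
  ring

lemma W_maj (L : ℕ) (hL : 1 ≤ L) (Q : ℝ) (hQ : Q ≤ L) : Maj L Q 0 1 (2 * L) (W L) (cW L) := by
  classical
  have hL0 : (0 : ℝ) < L := by exact_mod_cast hL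
  have hcs : ∀ F : ℤ → ℂ, ∑ n ∈ Icc (-(L : ℤ)) L, (cW L n : ℂ) * F n = 2 / L * ∑ q ∈ range L ×ˢ range L, F ((q.1 : ℤ) - q.2) := by
    intro F
    unfold cW
    rw [mul_sum]
    rw [← sum_fiberwise_of_maps_to (s := range L ×ˢ range L) (t := Icc (-(L : ℤ)) L) (g := fun q => (q.1 : ℤ) - q.2)
      (f := fun q => 2 / (L : ℂ) * F ((q.1 : ℤ) - q.2))]
    · apply sum_congr rfl
      intro n _
      rw [sum_congr rfl (fun q hq => by rw [(mem_filter.1 hq).2] :
        ∀ q ∈ (range L ×ˢ range L).filter (fun q => (q.1 : ℤ) - q.2 = n), 2 / (L : ℂ) * F ((q.1 : ℤ) - q.2) = 2 / (L : ℂ) * F n),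
        sum_const, nsmul_eq_mul]
      push_cast
      ring
    · intro q hq
      rw [mem_product, mem_range, mem_range] at hq
      rw [mem_Icc]
      omega
  have hb : ∀ n, cW L n ≤ 2 := by
    intro n
    unfold cW
    have h1 : ((range L ×ˢ range L).filter (fun q => (q.1 : ℤ) - q.2 = n)).card ≤ L := by
      calc _ ≤ (range L).card := by
            apply card_le_card_of_injOn (fun q => q.1)
            · intro q hq
              exact (mem_product.1 (mem_filter.1 (mem_coe.1 hq)).1).1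
            · intro q hq q' hq' hqq
              have h2 := (mem_filter.1 (mem_coe.1 hq)).2
              have h3 := (mem_filter.1 (mem_coe.1 hq')).2
              simp only at hqq
              apply Prod.ext hqq
              omega
        _ = L := card_range L
    have h2 : (((range L ×ˢ range L).filter (fun q => (q.1 : ℤ) - q.2 = n)).card : ℝ) ≤ L := by exact_mod_cast h1
    calc _ ≤ 2 / (L : ℝ) * L := by gcongr
      _ = 2 := by field_simp
  refine ⟨?_, ?_, ?_, ?_, ?_, ?_, ?_⟩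
  · intro n
    unfold cW
    positivity
  · intro n hn
    unfold cW
    rw [filter_false_of_mem, card_empty, Nat.cast_zero, mul_zero]
    intro q hq h1
    rw [mem_product, mem_range, mem_range] at hq
    rw [← h1] at hn
    have : |(q.1 : ℤ) - q.2| ≤ L := by rw [abs_le]; omega
    omega
  · intro θ
    rw [W_eq, hcs (fun n => e (θ * n))]
  · intro θ
    unfold W
    positivity
  · intro n _
    rw [pow_zero, mul_one]
    exact hb n
  · have := hb 0
    rcases le_or_gt 0 Q with h | h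
    · nlinarith [hb 0]
    · have h2 : 0 ≤ cW L 0 := by unfold cW; positivity
      nlinarith
  · have h1 := hcs (fun _ => 1)
    simp only [mul_one] at h1
    rw [sum_const, card_product, card_range] at h1
    have h2 : ((∑ n ∈ Icc (-(L : ℤ)) L, cW L n : ℝ) : ℂ) = ((2 * L : ℝ) : ℂ) := by
      push_cast
      rw [h1]
      have : (L : ℂ) ≠ 0 := by exact_mod_cast hL0.ne'
      simp only [nsmul_eq_mul]
      push_cast
      field_simp
    exact_mod_cast h2

end Pool.Agent.H96.PR
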