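import Pool.Agent.H96.PR.B
import Pool.Agent.H96.PR.C
import Pool.Graph.R_pool_sql_team_seeded_2aa45f1a.Q56.TF.Win

set_option autoImplicit false

/-! Box sums are dominated by trigonometric polynomials with divisor-bounded coefficients. -/

namespace Pool.Agent.H96.PR
open Finset

lemma cW_ge (M : ℕ) (hM : 1 ≤ M) (d : ℤ) (hd : |d| ≤ M) : 1 ≤ cW (2 * M) d := by
  classical
  unfold cW
  have hM0 : (0 : ℝ) < M := by exact_mod_cast hM
  have h1 : M ≤ ((range (2 * M) ×ˢ range (2 * M)).filter (fun q => (q.1 : ℤ) - q.2 = d)).card := by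
    calc M = (range M).card := (card_range M).symm
      _ ≤ _ := by
        rcases le_total 0 d with h0 | h0
        · rw [abs_of_nonneg h0] at hd
          apply card_le_card_of_injOn (fun j => (d.toNat + j, j))
          · intro j hj
            rw [mem_coe, mem_range] at hj
            rw [mem_coe, mem_filter, mem_product, mem_range, mem_range]
            simp only
            omega
          · intro j _ j' _ h
            simp only [Prod.mk.injEq] at h
            exact h.2
        · rw [abs_of_nonpos h0] at hd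
          apply card_le_card_of_injOn (fun j => (j, (-d).toNat + j))
          · intro j hj
            rw [mem_coe, mem_range] at hj
            rw [mem_coe, mem_filter, mem_product, mem_range, mem_range]
            simp only
            omega
          · intro j _ j' _ h
            simp only [Prod.mk.injEq] at h
            exact h.1
  have h2 : (M : ℝ) ≤ (((range (2 * M) ×ˢ range (2 * M)).filter (fun q => (q.1 : ℤ) - q.2 = d)).card : ℝ) := by
    exact_mod_cast h1
  calc (1 : ℝ) = 2 / ((2 * M : ℕ) : ℝ) * M := by push_cast; field_simp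
    _ ≤ _ := by gcongr

section one
variable {h : ℕ} {X : Type} [Fintype X] (a : X → ℤ)

omit [Fintype X] in
lemma mu_le (A : ℕ) (ha : ∀ x, |a x| ≤ A) (y : Y h X) : |mu a y| ≤ ((2 * h * A : ℕ) : ℤ) := by
  unfold mu
  have h1 : ∀ p : Fin h → X, |∑ j, a (p j)| ≤ h * A := by
    intro p
    refine (abs_sum_le_sum_abs _ _).trans ((sum_le_sum fun j _ => ha (p j)).trans ?_)
    rw [sum_const, card_univ, Fintype.card_fin, nsmul_eq_mul]
  have h2 := h1 y.1
  have h3 := h1 y.2
  have h4 := abs_sub (∑ j, a (y.1 j)) (∑ j, a (y.2 j))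
  push_cast
  linarith

open Classical in
/-- the number of the pairs of tuples with equal sums -/
noncomputable def Eg (h : ℕ) {X : Type} [Fintype X] (a : X → ℤ) : ℕ := ((univ : Finset (Y h X)).filter (fun y => mu a y = 0)).card

open Classical in
lemma fib_le (μ : ℤ) : ((univ : Finset (Y h X)).filter (fun y => mu a y = μ)).card ≤ Eg h a := by
  have h1 := Pool.Agent.Q56.TF.pairs_le (univ : Finset (Fin h → X)) (fun p => ∑ j, a (p j)) (-μ)
  rw [univ_product_univ] at h1
  unfold Eg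
  have e1 : ((univ : Finset (Y h X)).filter (fun y => mu a y = μ)) =
      (univ : Finset (Y h X)).filter (fun q => ∑ j, a (q.2 j) = ∑ j, a (q.1 j) + -μ) := by
    apply filter_congr
    intro y _
    unfold mu
    constructor <;> intro hy <;> linarith
  have e2 : ((univ : Finset (Y h X)).filter (fun y => mu a y = 0)) =
      (univ : Finset (Y h X)).filter (fun q => ∑ j, a (q.2 j) = ∑ j, a (q.1 j)) := by
    apply filter_congr
    intro y _
    unfold mu
    constructor <;> intro hy <;> linarith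
  rw [e1, e2]
  exact h1

/-- summation over the pairs of tuples, and summation over the differences -/
lemma fib (A : ℕ) (ha : ∀ x, |a x| ≤ A) (f : ℤ → ℝ) (hf : ∀ μ, 0 ≤ f μ) :
    (∑ y : Y h X, f (mu a y)) / Fintype.card (Y h X) ≤
      ((Eg h a : ℝ) / Fintype.card (Y h X)) * ∑ μ ∈ Icc (-((2 * h * A : ℕ) : ℤ)) ((2 * h * A : ℕ) : ℤ), f μ := by
  classical
  have h1 : ∑ y : Y h X, f (mu a y) = ∑ μ ∈ Icc (-((2 * h * A : ℕ) : ℤ)) ((2 * h * A : ℕ) : ℤ),
      ∑ y ∈ (univ : Finset (Y h X)).filter (fun y => mu a y = μ), f (mu a y) := by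
    rw [sum_fiberwise_of_maps_to]
    intro y _
    rw [mem_Icc_abs]
    exact mu_le a A ha y
  rw [h1, div_mul_eq_mul_div]
  gcongr
  rw [mul_sum]
  apply sum_le_sum
  intro μ _
  rw [sum_congr rfl (fun y hy => by rw [(mem_filter.1 hy).2] :
    ∀ y ∈ (univ : Finset (Y h X)).filter (fun y => mu a y = μ), f (mu a y) = f μ), sum_const, nsmul_eq_mul]
  have h2 : (((univ : Finset (Y h X)).filter (fun y => mu a y = μ)).card : ℝ) ≤ Eg h a := by exact_mod_cast fib_le a μ
  exact mul_le_mul_of_nonneg_right h2 (hf μ)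

/-- the sum of the exponential sums over the multiples of a frequency -/
lemma base_one (A M : ℕ) (hM : 1 ≤ M) (ha : ∀ x, |a x| ≤ A) (θ : ℝ) :
    ∑ d ∈ Icc (-(M : ℤ)) M, (‖∑ x, e ((θ * d) * a x)‖ / Fintype.card X) ^ (2 * h) ≤
      ((Eg h a : ℝ) / Fintype.card (Y h X)) *
        ∑ μ ∈ Icc (-((2 * h * A : ℕ) : ℤ)) ((2 * h * A : ℕ) : ℤ), W (2 * M) (θ * μ) := by
  classical
  have hWm := W_maj (2 * M) (by omega) (2 * M) (by push_cast; exact le_rfl)
  have hcY : (Fintype.card (Y h X) : ℝ) = (Fintype.card X : ℝ) ^ (2 * h) := by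
    rw [Fintype.card_prod, Fintype.card_fun, Fintype.card_fin, ← pow_add, ← two_mul]
    push_cast
    rfl
  have h1 : ∑ d ∈ Icc (-(M : ℤ)) M, (‖∑ x, e ((θ * d) * a x)‖ / Fintype.card X) ^ (2 * h) ≤
      ∑ d ∈ Icc (-((2 * M : ℕ) : ℤ)) ((2 * M : ℕ) : ℤ), cW (2 * M) d * (‖∑ x, e ((θ * d) * a x)‖ / Fintype.card X) ^ (2 * h) := by
    calc _ ≤ ∑ d ∈ Icc (-(M : ℤ)) M, cW (2 * M) d * (‖∑ x, e ((θ * d) * a x)‖ / Fintype.card X) ^ (2 * h) := by
          apply sum_le_sum
          intro d hd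
          rw [mem_Icc_abs] at hd
          exact le_mul_of_one_le_left (by positivity) (cW_ge M hM d hd)
      _ ≤ _ := by
          apply sum_le_sum_of_subset_of_nonneg
          · intro d hd
            rw [mem_Icc] at hd ⊢
            push_cast
            omega
          · intro d _ _
            exact mul_nonneg (hWm.nonneg d) (by positivity)
  refine h1.trans ?_
  have h2 : ∑ d ∈ Icc (-((2 * M : ℕ) : ℤ)) ((2 * M : ℕ) : ℤ), cW (2 * M) d * (‖∑ x, e ((θ * d) * a x)‖ / Fintype.card X) ^ (2 * h) =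
      (∑ y : Y h X, W (2 * M) (θ * mu a y)) / Fintype.card (Y h X) := by
    have h3 : ((∑ d ∈ Icc (-((2 * M : ℕ) : ℤ)) ((2 * M : ℕ) : ℤ), cW (2 * M) d * ‖∑ x, e ((θ * d) * a x)‖ ^ (2 * h) : ℝ) : ℂ) =
        ((∑ y : Y h X, W (2 * M) (θ * mu a y) : ℝ) : ℂ) := by
      push_cast
      have e1 : ∀ y : Y h X, ((W (2 * M) (θ * mu a y) : ℝ) : ℂ) = ∑ d ∈ Icc (-((2 * M : ℕ) : ℤ)) ((2 * M : ℕ) : ℤ),
          (cW (2 * M) d : ℂ) * e (θ * mu a y * d) := fun y => hWm.eq _
      simp only [e1]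
      rw [sum_comm]
      push_cast
      apply sum_congr rfl
      intro d _
      rw [← mul_sum]
      congr 1
      have e2 := norm_pow_eq h (fun x => e ((θ * d) * a x))
      push_cast at e2
      rw [e2]
      apply sum_congr rfl
      intro y _
      have e3 : ∏ j, (starRingEnd ℂ) (e (θ * d * (a (y.2 j) : ℝ))) = ∏ j, e (-(θ * d * (a (y.2 j) : ℝ))) :=
        prod_congr rfl fun j _ => conj_e _
      rw [e3, ← e_sum, ← e_sum, ← e_add]
      congr 1
      unfold mu
      push_cast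
      rw [sum_neg_distrib, ← mul_sum, ← mul_sum]
      ring
    have h4 : ∑ d ∈ Icc (-((2 * M : ℕ) : ℤ)) ((2 * M : ℕ) : ℤ), cW (2 * M) d * ‖∑ x, e ((θ * d) * a x)‖ ^ (2 * h) =
        ∑ y : Y h X, W (2 * M) (θ * mu a y) := by exact_mod_cast h3
    rw [← h4, sum_div, hcY]
    apply sum_congr rfl
    intro d _
    rw [div_pow, mul_div_assoc]
  rw [h2]
  exact fib a A ha (fun μ => W (2 * M) (θ * μ)) (fun μ => hWm.pos _)

end one

/-- the box sums are dominated -/
theorem maj (h : ℕ) (hh : 1 ≤ h) (Q : ℝ) (hQ0 : 0 ≤ Q) : ∀ (k : ℕ) (X : Fin (k + 2) → Type) [∀ i, Fintype (X i)] (a : ∀ i, X i → ℤ)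
    (A : Fin (k + 2) → ℕ), (∀ i, 1 ≤ A i) → (∀ i x, |a i x| ≤ A i) → (∀ i, Q ≤ A i) →
    ∃ (Z : ℕ) (tot : ℝ) (T : ℝ → ℝ) (c : ℤ → ℝ), Maj Z Q (k + 1) (k + 2) tot T c ∧
      Z ≤ ∏ i, (5 * h * A i) ∧ tot ≤ 2 * ∏ i, (5 * h * A i : ℝ) ∧ 0 ≤ tot ∧
      ∀ θ, R h (k + 1) X a θ ≤ (∏ i, ((Eg h (a i) : ℝ) / Fintype.card (Y h (X i)))) * T θ := by
  classical
  intro k
  induction k with
  | zero =>
    intro X _ a A hA ha hQ
    have hhA : ∀ i, 1 ≤ h * A i := fun i => Nat.mul_pos hh (hA i)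
    obtain ⟨M0, hM0⟩ : ∃ M0, M0 = 2 * h * A 0 := ⟨_, rfl⟩
    obtain ⟨M1, hM1⟩ : ∃ M1, M1 = 2 * h * A 1 := ⟨_, rfl⟩
    have hM01 : 1 ≤ M0 := by rw [hM0]; have := hhA 0; nlinarith
    have hQ' : ∀ i, Q ≤ 2 * h * A i := by
      intro i
      refine (hQ i).trans ?_
      have : (1 : ℝ) ≤ h := by exact_mod_cast hh
      have : (1 : ℝ) ≤ A i := by exact_mod_cast hA i
      nlinarith
    have hW := W_maj (2 * M0) (by omega) Q (by
      have := hQ' 0
      rw [hM0]
      push_cast
      nlinarith)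
    have hT := hW.step M1 hQ0 (by norm_num) (by
      have := hQ' 1
      rw [hM1]
      push_cast
      nlinarith)
    refine ⟨_, _, _, _, by convert hT using 1; norm_num, ?_, ?_, ?_, ?_⟩
    · rw [Fin.prod_univ_two, hM0, hM1]
      have := hhA 0
      have := hhA 1
      calc 2 * h * A 1 * (2 * (2 * h * A 0)) = 8 * (h * A 0) * (h * A 1) := by ring
        _ ≤ 25 * (h * A 0) * (h * A 1) := by gcongr; norm_num
        _ = _ := by ring
    · rw [Fin.prod_univ_two, hM0, hM1]
      push_cast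
      have h0 : (1 : ℝ) ≤ h * A 0 := by exact_mod_cast hhA 0
      have h1 : (1 : ℝ) ≤ h * A 1 := by exact_mod_cast hhA 1
      nlinarith
    · positivity
    · intro θ
      have e1 : R h (0 + 1) X a θ = (∑ y : Y h (X 0), R h 0 (fun i => X i.succ) (fun i => a i.succ) (θ * mu (a 0) y)) /
        Fintype.card (Y h (X 0)) := rfl
      rw [e1]
      have h1 := fib (h := h) (a 0) (A 0) (ha 0) (fun μ => R h 0 (fun i : Fin 1 => X i.succ) (fun i => a i.succ) (θ * μ)) (fun μ => R_nonneg _ _ _ _ _)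
      refine h1.trans ?_
      rw [Fin.prod_univ_two]
      refine le_trans ?_ (le_of_eq (mul_assoc _ _ _).symm)
      apply mul_le_mul_of_nonneg_left _ (by positivity)
      have h2 := base_one (h := h) (a 1) (A 1) M0 hM01 (ha 1) θ
      rw [← hM0]
      rw [← hM1] at h2
      exact h2
  | succ k ih =>
    intro X _ a A hA ha hQ
    obtain ⟨Z, tot, T, c, hT, hZ, htot, htot0, hR⟩ := ih (fun i => X i.succ) (fun i => a i.succ) (fun i => A i.succ)
      (fun i => hA i.succ) (fun i => ha i.succ) (fun i => hQ i.succ)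
    have hhA : 1 ≤ h * A 0 := Nat.mul_pos hh (hA 0)
    have hhAr : (1 : ℝ) ≤ h * A 0 := by exact_mod_cast hhA
    have hS := hT.step (2 * h * A 0) hQ0 (by positivity) (by
      have h1 := hQ 0
      have : (1 : ℝ) ≤ h := by exact_mod_cast hh
      have : (1 : ℝ) ≤ A 0 := by exact_mod_cast hA 0
      push_cast
      nlinarith)
    refine ⟨_, _, _, _, by convert hS using 1; push_cast; ring, ?_, ?_, ?_, ?_⟩
    · rw [Fin.prod_univ_succ]
      exact Nat.mul_le_mul (Nat.mul_le_mul_right _ (Nat.mul_le_mul_right _ (by norm_num))) hZ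
    · rw [Fin.prod_univ_succ]
      have hpr : (0 : ℝ) ≤ ∏ i : Fin (k + 2), (5 * h * A i.succ : ℝ) := prod_nonneg fun i _ => by positivity
      calc (2 * ((2 * h * A 0 : ℕ) : ℝ) + 1) * tot ≤ (5 * h * A 0) * (2 * ∏ i : Fin (k + 2), (5 * h * A i.succ : ℝ)) := by
            gcongr
            push_cast
            nlinarith
        _ = _ := by ring
    · positivity
    · intro θ
      have e1 : R h (k + 1 + 1) X a θ = (∑ y : Y h (X 0), R h (k + 1) (fun i => X i.succ) (fun i => a i.succ) (θ * mu (a 0) y)) /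
        Fintype.card (Y h (X 0)) := rfl
      rw [e1]
      have h1 := fib (h := h) (a 0) (A 0) (ha 0) (fun μ => R h (k + 1) (fun i : Fin (k + 2) => X i.succ) (fun i => a i.succ) (θ * μ)) (fun μ => R_nonneg _ _ _ _ _)
      refine h1.trans ?_
      rw [Fin.prod_univ_succ]
      refine le_trans ?_ (le_of_eq (mul_assoc _ _ _).symm)
      apply mul_le_mul_of_nonneg_left _ (by positivity)
      rw [mul_sum]
      apply sum_le_sum
      intro μ _
      exact hR (θ * μ)

end Pool.Agent.H96.PR
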