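import Pool.Agent.H96.PR.D
import Pool.Graph.R_seed8.TH935.LP.L1
import Pool.Graph.R_seed8.TH935.GF2

set_option autoImplicit false

/-! The additive energy of products of families. -/

namespace Pool.Agent.H96.PR
open Finset

lemma orth (q : ℕ) (hq : 1 ≤ q) (n : ℤ) : ∑ t ∈ range q, e ((t : ℝ) / q * n) = if (q : ℤ) ∣ n then (q : ℂ) else 0 := by
  have hq0 : (q : ℝ) ≠ 0 := by positivity
  have hz : ∀ t : ℕ, e ((t : ℝ) / q * n) = (e ((n : ℝ) / q)) ^ t := by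
    intro t
    have h1 : (t : ℝ) / q * n = ∑ _i ∈ range t, (n : ℝ) / q := by
      rw [sum_const, card_range, nsmul_eq_mul]
      ring
    rw [h1, e_sum, prod_const, card_range]
  simp only [hz]
  split_ifs with hd
  · obtain ⟨c, hc⟩ := hd
    have h1 : e ((n : ℝ) / q) = 1 := by
      rw [hc]
      push_cast
      rw [mul_div_cancel_left₀ _ hq0]
      exact e_int c
    rw [h1]
    simp
  · have h1 : e ((n : ℝ) / q) ≠ 1 := by
      intro h
      apply hd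
      unfold e at h
      rw [Complex.exp_eq_one_iff] at h
      obtain ⟨c, hc⟩ := h
      refine ⟨c, ?_⟩
      have h2 : (2 * Real.pi * ((n : ℝ) / q) : ℂ) = c * (2 * Real.pi) := by
        have h3 : ((2 * Real.pi * ((n : ℝ) / q) : ℝ) : ℂ) * Complex.I = (c * (2 * Real.pi)) * Complex.I := by
          rw [hc]; ring
        have h4 := mul_right_cancel₀ Complex.I_ne_zero h3
        rw [← h4]
        push_cast
        ring
      have h5 : (2 * Real.pi * ((n : ℝ) / q) : ℝ) = c * (2 * Real.pi) := by exact_mod_cast h2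
      have hpi : (2 * Real.pi) ≠ 0 := by positivity
      have h6 : (n : ℝ) / q = c := by
        apply mul_left_cancel₀ hpi
        rw [h5]; ring
      rw [div_eq_iff hq0] at h6
      have h7 : (n : ℝ) = ((q * c : ℤ) : ℝ) := by rw [h6]; push_cast; ring
      exact_mod_cast h7
    rw [geom_sum_eq h1]
    have h2 : e ((n : ℝ) / q) ^ q = 1 := by
      rw [← hz q, div_self hq0, one_mul]
      exact e_int n
    rw [h2, sub_self, zero_div]

/-- Parseval -/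
lemma parseval (q Z : ℕ) (hq : 2 * Z < q) (S : Finset ℤ) (hS : ∀ n ∈ S, |n| ≤ Z) (c : ℤ → ℝ) :
    ∑ t ∈ range q, ‖∑ n ∈ S, (c n : ℂ) * e ((t : ℝ) / q * n)‖ ^ 2 = q * ∑ n ∈ S, c n ^ 2 := by
  have h1 : ∀ t : ℕ, ((‖∑ n ∈ S, (c n : ℂ) * e ((t : ℝ) / q * n)‖ ^ 2 : ℝ) : ℂ) =
      ∑ n ∈ S, ∑ n' ∈ S, (c n : ℂ) * (c n' : ℂ) * e ((t : ℝ) / q * ((n - n' : ℤ) : ℝ)) := by
    intro t
    have h2 := Complex.mul_conj (∑ n ∈ S, (c n : ℂ) * e ((t : ℝ) / q * n))
    rw [Complex.normSq_eq_norm_sq] at h2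
    rw [← h2, map_sum, sum_mul_sum]
    apply sum_congr rfl
    intro n _
    apply sum_congr rfl
    intro n' _
    rw [map_mul, Complex.conj_ofReal, conj_e]
    have : e ((t : ℝ) / q * ((n - n' : ℤ) : ℝ)) = e ((t : ℝ) / q * n) * e (-((t : ℝ) / q * n')) := by
      rw [← e_add]
      congr 1
      push_cast
      ring
    rw [this]
    ring
  have h3 : ((∑ t ∈ range q, ‖∑ n ∈ S, (c n : ℂ) * e ((t : ℝ) / q * n)‖ ^ 2 : ℝ) : ℂ) = ((q * ∑ n ∈ S, c n ^ 2 : ℝ) : ℂ) := by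
    have hR : ((q * ∑ n ∈ S, c n ^ 2 : ℝ) : ℂ) = ∑ n ∈ S, (q : ℂ) * (c n : ℂ) ^ 2 := by
      push_cast
      rw [mul_sum]
    rw [hR, Complex.ofReal_sum, sum_congr rfl (fun t _ => h1 t), sum_comm]
    apply sum_congr rfl
    intro n hn
    rw [sum_comm]
    have h4 : ∀ n' ∈ S, ∑ t ∈ range q, (c n : ℂ) * (c n' : ℂ) * e ((t : ℝ) / q * ((n - n' : ℤ) : ℝ)) =
        if n' = n then (q : ℂ) * (c n : ℂ) ^ 2 else 0 := by
      intro n' hn'
      rw [← mul_sum, orth q (by omega)]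
      by_cases h5 : n' = n
      · rw [if_pos h5, if_pos (by rw [h5, sub_self]; exact dvd_zero _), h5]
        ring
      · rw [if_neg h5, if_neg, mul_zero]
        intro h6
        apply h5
        have h7 : |n - n'| < q := by
          have e1 := hS n hn
          have e2 := hS n' hn'
          have e3 := abs_sub n n'
          have e4 : (2 * Z : ℤ) < q := by exact_mod_cast hq
          omega
        have h8 := Int.eq_zero_of_abs_lt_dvd h6 h7
        omega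
    rw [sum_congr rfl h4, sum_ite_eq' S n, if_pos hn]
  exact_mod_cast h3

/-- the moments of a dominating polynomial -/
lemma Maj.moment {Z : ℕ} {Q : ℝ} {j : ℕ} {z tot : ℝ} {T : ℝ → ℝ} {c : ℤ → ℝ} (h : Maj Z Q j z tot T c) (q : ℕ)
    (hq : 2 * Z < q) (m : ℕ) (hm : 2 ≤ m) :
    (∑ t ∈ range q, T ((t : ℝ) / q) ^ m) / q ≤
      2 ^ (m - 1) * (c 0 ^ m + tot ^ (m - 2) * ∑ n ∈ (Icc (-(Z : ℤ)) Z).erase 0, c n ^ 2) := by
  have hq0 : (0 : ℝ) < q := by exact_mod_cast (by omega : 0 < q)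
  have h0 : (0 : ℤ) ∈ Icc (-(Z : ℤ)) Z := by rw [mem_Icc_abs]; simp
  obtain ⟨S, hS⟩ : ∃ S, S = (Icc (-(Z : ℤ)) Z).erase 0 := ⟨_, rfl⟩
  rw [← hS]
  have htot : c 0 + ∑ n ∈ S, c n = tot := by rw [hS, add_sum_erase _ _ h0, h.total]
  have hc0 := h.nonneg 0
  have hSn : 0 ≤ ∑ n ∈ S, c n := sum_nonneg fun n _ => h.nonneg n
  have hT : ∀ θ, T θ ≤ c 0 + ‖∑ n ∈ S, (c n : ℂ) * e (θ * n)‖ := by
    intro θ
    have h1 := h.eq θ
    rw [← add_sum_erase _ _ h0, ← hS] at h1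
    have h2 : ‖((T θ : ℝ) : ℂ)‖ = T θ := by rw [Complex.norm_real, Real.norm_of_nonneg (h.pos θ)]
    rw [← h2, h1]
    refine (norm_add_le _ _).trans ?_
    gcongr
    rw [norm_mul, Complex.norm_real, Real.norm_of_nonneg hc0, norm_e, mul_one]
  have hT1 : ∀ θ, ‖∑ n ∈ S, (c n : ℂ) * e (θ * n)‖ ≤ tot := by
    intro θ
    refine (norm_sum_le _ _).trans ?_
    have : ∑ n ∈ S, ‖(c n : ℂ) * e (θ * n)‖ = ∑ n ∈ S, c n := by
      apply sum_congr rfl
      intro n _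
      rw [norm_mul, Complex.norm_real, Real.norm_of_nonneg (h.nonneg n), norm_e, mul_one]
    rw [this]
    linarith
  have hpar := parseval q Z hq S (fun n hn => by rw [hS] at hn; exact mem_Icc_abs.1 (mem_of_mem_erase hn)) c
  rw [div_le_iff₀ hq0]
  calc ∑ t ∈ range q, T ((t : ℝ) / q) ^ m ≤ ∑ t ∈ range q, 2 ^ (m - 1) * (c 0 ^ m + tot ^ (m - 2) *
        ‖∑ n ∈ S, (c n : ℂ) * e ((t : ℝ) / q * n)‖ ^ 2) := by
        apply sum_le_sum
        intro t _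
        calc T ((t : ℝ) / q) ^ m ≤ (c 0 + ‖∑ n ∈ S, (c n : ℂ) * e ((t : ℝ) / q * n)‖) ^ m :=
              pow_le_pow_left₀ (h.pos _) (hT _) m
          _ ≤ 2 ^ (m - 1) * (c 0 ^ m + ‖∑ n ∈ S, (c n : ℂ) * e ((t : ℝ) / q * n)‖ ^ m) := add_pow_le hc0 (norm_nonneg _) m
          _ ≤ _ := by
              have e1 : ‖∑ n ∈ S, (c n : ℂ) * e ((t : ℝ) / q * n)‖ ^ m =
                  ‖∑ n ∈ S, (c n : ℂ) * e ((t : ℝ) / q * n)‖ ^ (m - 2) * ‖∑ n ∈ S, (c n : ℂ) * e ((t : ℝ) / q * n)‖ ^ 2 := by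
                rw [← pow_add]
                congr 1
                omega
              rw [e1]
              gcongr
              exact hT1 _
    _ = 2 ^ (m - 1) * (c 0 ^ m * q + tot ^ (m - 2) * ∑ t ∈ range q, ‖∑ n ∈ S, (c n : ℂ) * e ((t : ℝ) / q * n)‖ ^ 2) := by
        rw [← mul_sum, sum_add_distrib, ← mul_sum, sum_const, card_range, nsmul_eq_mul]
        ring
    _ = _ := by rw [hpar]; ring

/-- the second moment of the coefficients -/
lemma Maj.sq {Z : ℕ} {Q : ℝ} {j : ℕ} {z tot : ℝ} {T : ℝ → ℝ} {c : ℤ → ℝ} (h : Maj Z Q j z tot T c) :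
    ∑ n ∈ (Icc (-(Z : ℤ)) Z).erase 0, c n ^ 2 ≤ 8 * 4 ^ j * (Z * (1 + Real.log Z) ^ (2 ^ (2 * j))) := by
  classical
  have h1 : ∑ n ∈ (Icc (-(Z : ℤ)) Z).erase 0, c n ^ 2 ≤
      ∑ n ∈ (Icc (-(Z : ℤ)) Z).erase 0, 4 * 4 ^ j * (n.natAbs.divisors.card : ℝ) ^ (2 * j) := by
    apply sum_le_sum
    intro n hn
    have h2 := h.tau n (mem_erase.1 hn).1
    calc c n ^ 2 ≤ (2 * (2 * (n.natAbs.divisors.card : ℝ)) ^ j) ^ 2 := pow_le_pow_left₀ (h.nonneg n) h2 2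
      _ = _ := by
        rw [mul_pow, ← pow_mul, mul_comm j 2, mul_pow, pow_mul 2 2 j]
        norm_num
        ring
  refine h1.trans ?_
  have h2 : (Icc (-(Z : ℤ)) Z).erase 0 ⊆ ((Icc 1 Z).image (fun d : ℕ => (d : ℤ))) ∪ ((Icc 1 Z).image (fun d : ℕ => -(d : ℤ))) := by
    intro n hn
    rw [mem_erase, mem_Icc] at hn
    rw [mem_union, mem_image, mem_image]
    rcases le_total 0 n with h5 | h5
    · left
      exact ⟨n.toNat, mem_Icc.2 (by omega), by omega⟩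
    · right
      exact ⟨(-n).toNat, mem_Icc.2 (by omega), by omega⟩
  have h3 : ∀ f : ℤ → ℝ, (∀ n, 0 ≤ f n) → ∑ n ∈ (Icc (-(Z : ℤ)) Z).erase 0, f n ≤ ∑ d ∈ Icc 1 Z, f d + ∑ d ∈ Icc 1 Z, f (-(d : ℤ)) := by
    intro f hf
    refine (sum_le_sum_of_subset_of_nonneg h2 fun n _ _ => hf n).trans ?_
    have h4 := sum_union_inter (s₁ := (Icc 1 Z).image (fun d : ℕ => (d : ℤ))) (s₂ := (Icc 1 Z).image (fun d : ℕ => -(d : ℤ))) (f := f)
    rw [sum_image (by intro a _ b _ hab; simpa using hab), sum_image (by intro a _ b _ hab; simpa using hab)] at h4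
    have h5 : 0 ≤ ∑ n ∈ ((Icc 1 Z).image (fun d : ℕ => (d : ℤ))) ∩ ((Icc 1 Z).image (fun d : ℕ => -(d : ℤ))), f n := sum_nonneg fun n _ => hf n
    linarith
  refine (h3 _ (fun n => by positivity)).trans ?_
  simp only [Int.natAbs_natCast, Int.natAbs_neg]
  have h4 := Pool.Agent.TH935.LD.tau_pow_sum (2 * j) Z
  rw [← mul_sum]
  calc 4 * 4 ^ j * ∑ i ∈ Icc 1 Z, (i.divisors.card : ℝ) ^ (2 * j) + 4 * 4 ^ j * ∑ i ∈ Icc 1 Z, (i.divisors.card : ℝ) ^ (2 * j) =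
        8 * 4 ^ j * ∑ i ∈ Icc 1 Z, (i.divisors.card : ℝ) ^ (2 * j) := by ring
    _ ≤ _ := by gcongr

open Pool.Agent.TH935.GF (En)

lemma En_eq (h : ℕ) {V : Type} [Fintype V] (v : V → ℤ) : En h v = Eg h v := by
  classical
  unfold En Eg
  rw [Nat.card_eq_fintype_card, Fintype.card_subtype]
  congr 1
  apply filter_congr
  intro y _
  unfold mu
  constructor
  · intro hy; linarith
  · intro hy; linarith

/-- the energy is at most a moment of the exponential sums -/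
lemma energy_le (H q : ℕ) (hq : 1 ≤ q) {V : Type} [Fintype V] (v : V → ℤ) :
    (En H v : ℝ) * q ≤ ∑ t ∈ range q, ‖∑ x, e ((t : ℝ) / q * v x)‖ ^ (2 * H) := by
  classical
  have h1 : ((∑ t ∈ range q, ‖∑ x, e ((t : ℝ) / q * v x)‖ ^ (2 * H) : ℝ) : ℂ) =
      ((∑ y : Y H V, (if (q : ℤ) ∣ mu v y then (q : ℝ) else 0) : ℝ) : ℂ) := by
    rw [Complex.ofReal_sum]
    have h2 : ∀ t ∈ range q, ((‖∑ x, e ((t : ℝ) / q * v x)‖ ^ (2 * H) : ℝ) : ℂ) = ∑ y : Y H V, e ((t : ℝ) / q * mu v y) := by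
      intro t _
      rw [norm_pow_eq]
      apply sum_congr rfl
      intro y _
      have e3 : ∏ j, (starRingEnd ℂ) (e ((t : ℝ) / q * (v (y.2 j) : ℝ))) = ∏ j, e (-((t : ℝ) / q * (v (y.2 j) : ℝ))) :=
        prod_congr rfl fun j _ => conj_e _
      rw [e3, ← e_sum, ← e_sum, ← e_add]
      congr 1
      unfold mu
      push_cast
      rw [sum_neg_distrib, ← mul_sum, ← mul_sum]
      ring
    rw [sum_congr rfl h2, sum_comm]
    push_cast
    apply sum_congr rfl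
    intro y _
    rw [orth q hq]
    split_ifs <;> simp
  have h2 : ∑ t ∈ range q, ‖∑ x, e ((t : ℝ) / q * v x)‖ ^ (2 * H) = ∑ y : Y H V, (if (q : ℤ) ∣ mu v y then (q : ℝ) else 0) := by
    exact_mod_cast h1
  rw [h2, En_eq]
  unfold Eg
  rw [← nsmul_eq_mul, ← sum_const, sum_filter]
  apply sum_le_sum
  intro y _
  by_cases hy : mu v y = 0
  · rw [if_pos hy, if_pos (by rw [hy]; exact dvd_zero _)]
  · rw [if_neg hy]
    positivity

end Pool.Agent.H96.PR
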