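import Pool.Agent.H96.PR.E

set_option autoImplicit false

/-! The additive energy of products of families: the main bound. -/

namespace Pool.Agent.H96.PR
open Finset
open Pool.Agent.TH935.GF (En)

/-- the energy of order `h (2 h) ^ (k + 1) m` of a product with perturbations, in terms of the dominating polynomial -/
lemma energy_step (h k m : ℕ) (hh : 1 ≤ h) (hm : 2 ≤ m) (Q : ℝ) (hQ0 : 0 < Q) (X : Fin (k + 2) → Type) [∀ i, Fintype (X i)]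
    (a : ∀ i, X i → ℤ) (A : Fin (k + 2) → ℕ) (hA : ∀ i, 1 ≤ A i) (ha : ∀ i x, |a i x| ≤ A i) (hQ : ∀ i, Q ≤ A i)
    (f : Fin (k + 2) → (∀ i, X i) → ℤ) (hf : ∀ s x x', (∀ t, t ≠ s → x t = x' t) → f s x = f s x') :
    ∃ (Z : ℕ) (tot c0 : ℝ), Z ≤ ∏ i, (5 * h * A i) ∧ tot ≤ 2 * ∏ i, (5 * h * A i : ℝ) ∧ 0 ≤ tot ∧ 0 ≤ c0 ∧
      c0 * Q ≤ (k + 2) * tot ∧
      (En (h * (2 * h) ^ (k + 1) * m) (fun x : ∀ i, X i => ∏ i, a i (x i) + ∑ s, f s x) : ℝ) ≤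
        (Fintype.card (∀ i, X i) : ℝ) ^ (2 * (h * (2 * h) ^ (k + 1) * m)) *
          ((∏ i, ((Eg h (a i) : ℝ) / Fintype.card (Y h (X i)))) ^ m *
            (2 ^ (m - 1) * (c0 ^ m + tot ^ (m - 2) * (8 * 4 ^ (k + 1) * (Z * (1 + Real.log Z) ^ (2 ^ (2 * (k + 1)))))))) := by
  classical
  obtain ⟨Z, tot, T, c, hT, hZ, htot, htot0, hR⟩ := maj h hh Q hQ0.le k X a A hA ha hQ
  refine ⟨Z, tot, c 0, hZ, htot, htot0, hT.nonneg 0, hT.zero, ?_⟩
  obtain ⟨v, hv⟩ : ∃ v : (∀ i, X i) → ℤ, v = fun x => ∏ i, a i (x i) + ∑ s, f s x := ⟨_, rfl⟩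
  rw [← hv]
  obtain ⟨P, hP⟩ : ∃ P : ℝ, P = Fintype.card (∀ i, X i) := ⟨_, rfl⟩
  rw [← hP]
  obtain ⟨κ, hκ⟩ : ∃ κ : ℝ, κ = ∏ i, ((Eg h (a i) : ℝ) / Fintype.card (Y h (X i))) := ⟨_, rfl⟩
  rw [← hκ] at hR ⊢
  have hκ0 : 0 ≤ κ := by rw [hκ]; exact prod_nonneg fun i _ => by positivity
  have hP0 : 0 ≤ P := by rw [hP]; positivity
  obtain ⟨H, hH⟩ : ∃ H, H = h * (2 * h) ^ (k + 1) * m := ⟨_, rfl⟩
  rw [← hH]
  have h2H : 2 * H = (2 * h) ^ (k + 1 + 1) * m := by rw [hH, pow_succ (2 * h) (k + 1)]; ring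
  have hH1 : 1 ≤ H := by
    rw [hH]
    have : 0 < h * (2 * h) ^ (k + 1) * m := by positivity
    exact this
  -- the pointwise bound
  have hS : ∀ θ, ‖∑ x, e (θ * v x)‖ ^ (2 * H) ≤ P ^ (2 * H) * (κ ^ m * T θ ^ m) := by
    intro θ
    have h1 := gcs h hh (k + 1) X a θ (fun s x => e (θ * f s x)) (fun s x x' hxx => by rw [hf s x x' hxx])
      (fun s x => (norm_e _).le)
    have h2 : ∑ x : ∀ i, X i, e (θ * ((∏ i, a i (x i) : ℤ) : ℝ)) * ∏ s, e (θ * f s x) = ∑ x, e (θ * v x) := by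
      apply sum_congr rfl
      intro x _
      rw [← e_sum, ← e_add, hv]
      congr 1
      push_cast
      rw [mul_add, mul_sum]
    rw [h2, ← hP] at h1
    have h3 := h1.trans (hR θ)
    rcases hP0.eq_or_lt with hz | hz
    · have he : IsEmpty (∀ i, X i) := by
        rw [hP] at hz
        exact Fintype.card_eq_zero_iff.1 (by exact_mod_cast hz.symm)
      rw [Fintype.sum_empty, norm_zero, zero_pow (by omega)]
      have := hT.pos θ
      positivity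
    · have h4 : ‖∑ x, e (θ * v x)‖ ^ (2 * H) = P ^ (2 * H) * ((‖∑ x, e (θ * v x)‖ / P) ^ ((2 * h) ^ (k + 1 + 1))) ^ m := by
        rw [← pow_mul, ← h2H, ← mul_pow, mul_div_cancel₀ _ hz.ne']
      rw [h4, ← mul_pow]
      gcongr
  have hq := energy_le H (2 * Z + 1) (by omega) v
  have hq0 : (0 : ℝ) < ((2 * Z + 1 : ℕ) : ℝ) := by positivity
  have hmom := hT.moment (2 * Z + 1) (by omega) m hm
  have hsq := hT.sq
  have h5 : ∑ t ∈ range (2 * Z + 1), ‖∑ x, e ((t : ℝ) / ((2 * Z + 1 : ℕ) : ℝ) * v x)‖ ^ (2 * H) ≤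
      P ^ (2 * H) * (κ ^ m * ∑ t ∈ range (2 * Z + 1), T ((t : ℝ) / ((2 * Z + 1 : ℕ) : ℝ)) ^ m) := by
    rw [mul_sum, mul_sum]
    exact sum_le_sum fun t _ => hS _
  have h6 : (En H v : ℝ) ≤ P ^ (2 * H) * (κ ^ m * ((∑ t ∈ range (2 * Z + 1), T ((t : ℝ) / ((2 * Z + 1 : ℕ) : ℝ)) ^ m) / ((2 * Z + 1 : ℕ) : ℝ))) := by
    have h7 := hq.trans h5
    rw [← le_div_iff₀ hq0] at h7
    refine h7.trans (le_of_eq ?_)
    rw [mul_div_assoc, mul_div_assoc]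
  refine h6.trans ?_
  gcongr
  refine hmom.trans ?_
  gcongr

theorem energy_main (h k C B : ℕ) (hh : 1 ≤ h) (δ : ℝ) (hδ : 0 < δ) : ∃ H C' N₀ : ℕ, 1 ≤ H ∧ ∀ N : ℕ, N₀ ≤ N →
    ∀ (X : Fin (k + 2) → Type) [∀ i, Fintype (X i)] (a : ∀ i, X i → ℤ) (A : Fin (k + 2) → ℕ) (f : Fin (k + 2) → (∀ i, X i) → ℤ),
    (∀ i, (N : ℝ) ^ δ ≤ A i ∧ A i ≤ N ^ B) → (∀ i x, |a i x| ≤ A i) →
    (∀ i, (En h (a i) : ℝ) * A i ≤ Real.log N ^ C * (Fintype.card (X i) : ℝ) ^ (2 * h)) →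
    (N : ℝ) ≤ Real.log N ^ C * ∏ i, (A i : ℝ) →
    (∀ s x x', (∀ t, t ≠ s → x t = x' t) → f s x = f s x') →
    (En H (fun x : ∀ i, X i => ∏ i, a i (x i) + ∑ s, f s x) : ℝ) * N ≤
      Real.log N ^ C' * (Fintype.card (∀ i, X i) : ℝ) ^ (2 * H) := by
  classical
  obtain ⟨m, hmd⟩ : ∃ m : ℕ, m = ⌈1 / δ⌉₊ + 2 := ⟨_, rfl⟩
  have hm2 : 2 ≤ m := by omega
  have hδm : 1 ≤ δ * m := by
    have h1 : 1 / δ ≤ m := by
      rw [hmd]
      push_cast
      have := Nat.le_ceil (1 / δ)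
      linarith
    rw [div_le_iff₀ hδ] at h1
    linarith
  obtain ⟨J, hJ⟩ : ∃ J : ℕ, J = 2 ^ (2 * (k + 1)) := ⟨_, rfl⟩
  obtain ⟨D, hD⟩ : ∃ D : ℝ, D = 1 + (k + 2) * Real.log (5 * h) + B * (k + 2) := ⟨_, rfl⟩
  have hh1 : (1 : ℝ) ≤ h := by exact_mod_cast hh
  have hlog5 : 0 ≤ Real.log (5 * h) := Real.log_nonneg (by linarith)
  have hD1 : 1 ≤ D := by
    rw [hD]
    have : 0 ≤ (k + 2) * Real.log (5 * h) := by positivity
    have : (0 : ℝ) ≤ B * (k + 2) := by positivity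
    linarith
  obtain ⟨c₀, hc₀⟩ : ∃ c₀ : ℝ, c₀ = 2 ^ (m - 1) * ((2 * (k + 2) * (5 * h) ^ (k + 2)) ^ m +
    ((5 * h) ^ (k + 2)) ^ (m - 1) * 2 ^ (m - 2) * (8 * 4 ^ (k + 1)) * D ^ J) := ⟨_, rfl⟩
  obtain ⟨N₁, hN₁⟩ := Pool.Agent.H373R2.T7.ev_L' (c₀ + 1)
  refine ⟨h * (2 * h) ^ (k + 1) * m, C * ((k + 2) * m + (k + 3)) + J + 1, N₁ + 3, ?_, ?_⟩
  · have : 0 < h * (2 * h) ^ (k + 1) * m := by positivity
    exact this
  intro N hN X _ a A f hA ha hE hNA hf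
  have hL := hN₁ N (by omega)
  obtain ⟨L, hLd⟩ : ∃ L, L = Real.log (N : ℝ) := ⟨_, rfl⟩
  rw [← hLd] at hL hE hNA ⊢
  have hc₀0 : 0 ≤ c₀ := by rw [hc₀]; positivity
  have hL1 : 1 ≤ L := by linarith
  have hL0 : 0 < L := by linarith
  have hN3 : (3 : ℝ) ≤ N := by exact_mod_cast (by omega : 3 ≤ N)
  have hN0 : (0 : ℝ) < N := by linarith
  obtain ⟨Q, hQ⟩ : ∃ Q : ℝ, Q = (N : ℝ) ^ δ := ⟨_, rfl⟩
  have hQ0 : 0 < Q := by rw [hQ]; positivity
  have hQ1 : 1 ≤ Q := by rw [hQ]; exact Real.one_le_rpow (by linarith) hδ.le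
  have hQm : (N : ℝ) ≤ Q ^ m := by
    rw [hQ, ← Real.rpow_natCast, ← Real.rpow_mul hN0.le]
    calc (N : ℝ) = (N : ℝ) ^ (1 : ℝ) := (Real.rpow_one _).symm
      _ ≤ _ := Real.rpow_le_rpow_of_exponent_le (by linarith) hδm
  have hA1 : ∀ i, 1 ≤ A i := by
    intro i
    have h1 : (1 : ℝ) ≤ A i := hQ1.trans (by rw [hQ]; exact (hA i).1)
    exact_mod_cast h1
  obtain ⟨Z, tot, c0, hZ, htot, htot0, hc00, hc0Q, hEn⟩ := energy_step h k m hh hm2 Q hQ0 X a A hA1 ha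
    (fun i => by rw [hQ]; exact (hA i).1) f hf
  obtain ⟨K, hK⟩ : ∃ K : ℝ, K = L ^ C := ⟨_, rfl⟩
  rw [← hK] at hE hNA
  have hK1 : 1 ≤ K := by rw [hK]; exact one_le_pow₀ hL1
  have hK0 : 0 < K := by linarith
  obtain ⟨κ, hκ⟩ : ∃ κ : ℝ, κ = ∏ i, ((Eg h (a i) : ℝ) / Fintype.card (Y h (X i))) := ⟨_, rfl⟩
  rw [← hκ] at hEn
  have hκ0 : 0 ≤ κ := by rw [hκ]; exact prod_nonneg fun i _ => by positivity
  have hκi : ∀ i, ((Eg h (a i) : ℝ) / Fintype.card (Y h (X i))) * A i ≤ K := by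
    intro i
    have h1 := hE i
    rw [En_eq] at h1
    have hcY : (Fintype.card (Y h (X i)) : ℝ) = (Fintype.card (X i) : ℝ) ^ (2 * h) := by
      rw [Fintype.card_prod, Fintype.card_fun, Fintype.card_fin, ← pow_add, ← two_mul]
      push_cast
      rfl
    rw [← hcY] at h1
    rcases (Nat.cast_nonneg (α := ℝ) (Fintype.card (Y h (X i)))).eq_or_lt with hz | hz
    · rw [← hz, div_zero, zero_mul]
      exact hK0.le
    · rw [div_mul_eq_mul_div, div_le_iff₀ hz]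
      exact h1
  obtain ⟨G, hG⟩ : ∃ G : ℝ, G = ∏ i, (5 * h * A i : ℝ) := ⟨_, rfl⟩
  rw [← hG] at htot
  have hG1 : 1 ≤ G := by
    rw [hG]
    calc (1 : ℝ) = ∏ _i : Fin (k + 2), (1 : ℝ) := by rw [prod_const_one]
      _ ≤ _ := by
        apply prod_le_prod (fun _ _ => zero_le_one)
        intro i _
        have : (1 : ℝ) ≤ A i := by exact_mod_cast hA1 i
        nlinarith
  have hκG : κ * G ≤ ((5 * h) ^ (k + 2)) * K ^ (k + 2) := by
    rw [hκ, hG, ← prod_mul_distrib, ← mul_pow]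
    calc ∏ i, ((Eg h (a i) : ℝ) / Fintype.card (Y h (X i)) * (5 * h * A i)) ≤ ∏ _i : Fin (k + 2), (5 * h * K) := by
          apply prod_le_prod
          · intro i _; positivity
          · intro i _
            calc (Eg h (a i) : ℝ) / Fintype.card (Y h (X i)) * (5 * h * A i) =
                5 * h * ((Eg h (a i) : ℝ) / Fintype.card (Y h (X i)) * A i) := by ring
              _ ≤ _ := by gcongr; exact hκi i
      _ = _ := by rw [prod_const, card_univ, Fintype.card_fin]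
  have hκN : κ * N ≤ K ^ (k + 3) := by
    have h1 : κ * ∏ i, (A i : ℝ) ≤ K ^ (k + 2) := by
      rw [hκ, ← prod_mul_distrib]
      calc _ ≤ ∏ _i : Fin (k + 2), K := by
            apply prod_le_prod
            · intro i _; positivity
            · intro i _; exact hκi i
        _ = _ := by rw [prod_const, card_univ, Fintype.card_fin]
    calc κ * N ≤ κ * (K * ∏ i, (A i : ℝ)) := by gcongr
      _ = K * (κ * ∏ i, (A i : ℝ)) := by ring
      _ ≤ K * K ^ (k + 2) := by gcongr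
      _ = _ := by ring
  have hZG : (Z : ℝ) ≤ G := by
    rw [hG]
    exact_mod_cast hZ
  have hlogG : 1 + Real.log G ≤ D * L := by
    have h1 : G ≤ (5 * h) ^ (k + 2) * (N : ℝ) ^ (B * (k + 2)) := by
      rw [hG, pow_mul, ← mul_pow]
      calc ∏ i, (5 * h * A i : ℝ) ≤ ∏ _i : Fin (k + 2), (5 * h * (N : ℝ) ^ B) := by
            apply prod_le_prod
            · intro i _; positivity
            · intro i _
              gcongr
              exact_mod_cast (hA i).2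
        _ = _ := by rw [prod_const, card_univ, Fintype.card_fin]
    have h2 : Real.log G ≤ (k + 2) * Real.log (5 * h) + B * (k + 2) * L := by
      calc Real.log G ≤ Real.log ((5 * h) ^ (k + 2) * (N : ℝ) ^ (B * (k + 2))) := Real.log_le_log (by linarith) h1
        _ = _ := by
          rw [Real.log_mul (by positivity) (by positivity), Real.log_pow, Real.log_pow, ← hLd]
          push_cast
          ring
    rw [hD]
    have h3 : (k + 2) * Real.log (5 * h) ≤ (k + 2) * Real.log (5 * h) * L := le_mul_of_one_le_right (by positivity) hL1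
    nlinarith
  have hlogZ : (1 + Real.log Z) ^ J ≤ (D * L) ^ J := by
    have h0 : 0 ≤ Real.log (Z : ℝ) := Real.log_natCast_nonneg Z
    have h1 : Real.log (Z : ℝ) ≤ Real.log G := by
      rcases Nat.eq_zero_or_pos Z with hz | hz
      · rw [hz, Nat.cast_zero, Real.log_zero]
        exact Real.log_nonneg hG1
      · exact Real.log_le_log (by exact_mod_cast hz) hZG
    apply pow_le_pow_left₀ (by linarith)
    linarith
  -- the two parts
  have hp1 : (N : ℝ) * (κ ^ m * c0 ^ m) ≤ (2 * (k + 2) * (5 * h) ^ (k + 2)) ^ m * K ^ ((k + 2) * m) := by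
    have h1 : κ * c0 ≤ (2 * (k + 2) * (((5 * h) ^ (k + 2)) * K ^ (k + 2))) / Q := by
      rw [le_div_iff₀ hQ0]
      calc κ * c0 * Q = κ * (c0 * Q) := by ring
        _ ≤ κ * ((k + 2) * (2 * G)) := mul_le_mul_of_nonneg_left (hc0Q.trans (by gcongr)) hκ0
        _ = 2 * (k + 2) * (κ * G) := by ring
        _ ≤ _ := by gcongr
    calc (N : ℝ) * (κ ^ m * c0 ^ m) = N * (κ * c0) ^ m := by rw [mul_pow]
      _ ≤ N * ((2 * (k + 2) * (((5 * h) ^ (k + 2)) * K ^ (k + 2))) / Q) ^ m := by gcongr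
      _ = (N / Q ^ m) * (2 * (k + 2) * (((5 * h) ^ (k + 2)) * K ^ (k + 2))) ^ m := by rw [div_pow]; ring
      _ ≤ 1 * (2 * (k + 2) * (((5 * h) ^ (k + 2)) * K ^ (k + 2))) ^ m := by
          gcongr
          rw [div_le_one (by positivity)]
          exact hQm
      _ = _ := by rw [one_mul, ← mul_assoc, mul_pow _ (K ^ (k + 2)), ← pow_mul]
  have hp2 : (N : ℝ) * (κ ^ m * (tot ^ (m - 2) * (8 * 4 ^ (k + 1) * (Z * (1 + Real.log Z) ^ J)))) ≤
      ((5 * h) ^ (k + 2)) ^ (m - 1) * 2 ^ (m - 2) * (8 * 4 ^ (k + 1)) * D ^ J * (K ^ ((k + 2) * (m - 1) + (k + 3)) * L ^ J) := by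
    have hZ0 : (0 : ℝ) ≤ Z := Nat.cast_nonneg Z
    have h0 : 0 ≤ (1 + Real.log Z) ^ J := by
      have := Real.log_natCast_nonneg Z
      positivity
    have e1 : κ ^ m = κ * (κ ^ (m - 1)) := by rw [← pow_succ']; congr 1; omega
    have e2 : G ^ (m - 1) = G ^ (m - 2) * G := by rw [← pow_succ]; congr 1; omega
    calc (N : ℝ) * (κ ^ m * (tot ^ (m - 2) * (8 * 4 ^ (k + 1) * (Z * (1 + Real.log Z) ^ J)))) ≤
          N * (κ ^ m * ((2 * G) ^ (m - 2) * (8 * 4 ^ (k + 1) * (G * (D * L) ^ J)))) := by gcongr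
      _ = (κ * N) * (κ * G) ^ (m - 1) * 2 ^ (m - 2) * (8 * 4 ^ (k + 1)) * (D ^ J * L ^ J) := by
          rw [e1, mul_pow κ G, e2, mul_pow, mul_pow]
          ring
      _ ≤ (K ^ (k + 3)) * (((5 * h) ^ (k + 2)) * K ^ (k + 2)) ^ (m - 1) * 2 ^ (m - 2) * (8 * 4 ^ (k + 1)) * (D ^ J * L ^ J) := by
          gcongr
      _ = _ := by
          rw [mul_pow _ (K ^ (k + 2)), ← pow_mul K, pow_add K]
          ring
  have hKa : K ^ ((k + 2) * m) ≤ L ^ (C * ((k + 2) * m + (k + 3)) + J) := by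
    rw [hK, ← pow_mul]
    apply pow_le_pow_right₀ hL1
    have : C * ((k + 2) * m) ≤ C * ((k + 2) * m + (k + 3)) := Nat.mul_le_mul_left _ (by omega)
    omega
  have hKb : K ^ ((k + 2) * (m - 1) + (k + 3)) * L ^ J ≤ L ^ (C * ((k + 2) * m + (k + 3)) + J) := by
    rw [hK, ← pow_mul, ← pow_add]
    apply pow_le_pow_right₀ hL1
    have h1 : (k + 2) * (m - 1) ≤ (k + 2) * m := Nat.mul_le_mul_left _ (by omega)
    have : C * ((k + 2) * (m - 1) + (k + 3)) ≤ C * ((k + 2) * m + (k + 3)) := Nat.mul_le_mul_left _ (by omega)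
    omega
  rw [← hJ] at hEn
  obtain ⟨P, hP⟩ : ∃ P : ℝ, P = (Fintype.card (∀ i, X i) : ℝ) ^ (2 * (h * (2 * h) ^ (k + 1) * m)) := ⟨_, rfl⟩
  rw [← hP] at hEn ⊢
  have hP0 : 0 ≤ P := by rw [hP]; positivity
  calc (En (h * (2 * h) ^ (k + 1) * m) (fun x : ∀ i, X i => ∏ i, a i (x i) + ∑ s, f s x) : ℝ) * N ≤
        (P * (κ ^ m * (2 ^ (m - 1) * (c0 ^ m + tot ^ (m - 2) * (8 * 4 ^ (k + 1) * (Z * (1 + Real.log Z) ^ J)))))) * N := by gcongr
    _ = P * (2 ^ (m - 1) * (N * (κ ^ m * c0 ^ m) + N * (κ ^ m * (tot ^ (m - 2) * (8 * 4 ^ (k + 1) * (Z * (1 + Real.log Z) ^ J)))))) := by ring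
    _ ≤ P * (2 ^ (m - 1) * ((2 * (k + 2) * (5 * h) ^ (k + 2)) ^ m * K ^ ((k + 2) * m) +
        ((5 * h) ^ (k + 2)) ^ (m - 1) * 2 ^ (m - 2) * (8 * 4 ^ (k + 1)) * D ^ J * (K ^ ((k + 2) * (m - 1) + (k + 3)) * L ^ J))) := by gcongr
    _ ≤ P * (2 ^ (m - 1) * ((2 * (k + 2) * (5 * h) ^ (k + 2)) ^ m * L ^ (C * ((k + 2) * m + (k + 3)) + J) +
        ((5 * h) ^ (k + 2)) ^ (m - 1) * 2 ^ (m - 2) * (8 * 4 ^ (k + 1)) * D ^ J * L ^ (C * ((k + 2) * m + (k + 3)) + J))) := by gcongr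
    _ = P * (c₀ * L ^ (C * ((k + 2) * m + (k + 3)) + J)) := by rw [hc₀]; ring
    _ ≤ P * (L * L ^ (C * ((k + 2) * m + (k + 3)) + J)) := by gcongr; linarith
    _ = _ := by rw [pow_succ]; ring

end Pool.Agent.H96.PR
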